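import Mathlib

/-!
# The numbers of the type `(2, 1, 1, 3)`

Multipliers `n1 … n4` of the rows (functions of the height of the class), `kij` of the pairs
(functions of the heights of the two classes), shares `lmij` of the slacks of the pair `{i, j}` in
the column `m`, bounds `W1 … W4` of the columns.
-/

set_option autoImplicit false

namespace Pool.Agent.Helper47.TS

noncomputable def n1 (x : ℝ) : ℝ := 4869 / 5000 - 421 / 1250 * x

noncomputable def n2 (x : ℝ) : ℝ := 3929 / 5000 - 267 / 2500 * x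

noncomputable def n3 (x : ℝ) : ℝ := 893 / 1250 - 1717 / 10000 * x

noncomputable def n4 (x : ℝ) : ℝ := 1269 / 2000 - 461 / 2500 * x

noncomputable def k12 (x y : ℝ) : ℝ := 659 / 1000 - 699 / 1250 * x - 33 / 80 * y - 441 / 5000 * x * y

noncomputable def k13 (x y : ℝ) : ℝ := 227 / 500 - 4561 / 10000 * x - 1151 / 2000 * y + 3429 / 5000 * x * y

noncomputable def k14 (x y : ℝ) : ℝ := 3113 / 10000 - 4331 / 10000 * x - 1293 / 2500 * y + 7599 / 10000 * x * y

noncomputable def k23 (x y : ℝ) : ℝ := 1849 / 10000 - 1041 / 5000 * x - 507 / 2000 * y + 737 / 2000 * x * y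

noncomputable def k24 (x y : ℝ) : ℝ := 3923 / 10000 - 1401 / 2500 * x - 1293 / 2500 * y + 957 / 1000 * x * y

noncomputable def k34 (x y : ℝ) : ℝ := 253 / 400 - 2451 / 5000 * x - 1293 / 2000 * y + 12879 / 10000 * x * y

noncomputable def l123 (x y : ℝ) : ℝ := 647 / 5000 - 233 / 2000 * x - 537 / 2500 * y + 61 / 250 * x * y

noncomputable def l214 (x y : ℝ) : ℝ := 451 / 10000 - 499 / 10000 * x - 743 / 10000 * y + 831 / 10000 * x * y

noncomputable def l213 (x y : ℝ) : ℝ := 203 / 2500 + 411 / 2500 * x - 84 / 625 * y - 2741 / 10000 * x * y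

noncomputable def W1 (e a b : ℝ) : ℝ :=
  2727 / 10000 + 517 / 2000 * e + 181 / 625 * a + 2423 / 10000 * b + 2071 / 10000 * e ^ 2 - 31 / 2500 * e * a - 461 / 2500 * e * b + 2189 / 10000 * a ^ 2 - 2537 / 10000 * a * b + 4351 / 10000 * b ^ 2

noncomputable def W2 (e a b : ℝ) : ℝ :=
  2727 / 10000 + 669 / 2500 * e + 31 / 125 * a + 731 / 2500 * b + 2757 / 10000 * e ^ 2 - 203 / 1000 * e * a - 87 / 400 * e * b + 851 / 2000 * a ^ 2 - 803 / 5000 * a * b + 2079 / 5000 * b ^ 2

noncomputable def W3 (e a b : ℝ) : ℝ :=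
  4681 / 10000 + 1911 / 10000 * e + 737 / 10000 * a + 111 / 500 * b - 9 / 250 * e ^ 2 + 537 / 1250 * e * a + 454 / 625 * e * b + 3193 / 10000 * a ^ 2 + 149 / 1250 * a * b + 873 / 2500 * b ^ 2

noncomputable def W4 (e a b : ℝ) : ℝ :=
  1229 / 2500 + 697 / 5000 * e + 4289 / 10000 * a + 1333 / 5000 * b + 981 / 5000 * e ^ 2 + 3 / 80 * e * a + 2017 / 10000 * e * b + 21 / 125 * a ^ 2 + 1447 / 5000 * a * b + 2627 / 10000 * b ^ 2

end Pool.Agent.Helper47.TS
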