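import Pool.Agent.Helper83.Cert.Check
import Pool.Agent.Helper47.TS.Num

/-!
# The type `(2, 1, 1, 3)`: the total
-/

set_option autoImplicit false
set_option maxRecDepth 100000
set_option linter.unusedSimpArgs false

namespace Pool.Agent.Helper47.TS

open Pool.Agent.Helper83.Cert

theorem ctot {d0 d1 d2 d3 : ℝ} (h0 : 0 ≤ d0) (h1 : 0 ≤ d1) (h2 : 0 ≤ d2) (h3 : 0 ≤ d3) (g0 : 0 ≤ 3 / 5 - d0) (g1 : 0 ≤ 3 / 5 - d1) (g2 : 0 ≤ 3 / 5 - d2) (g3 : 0 ≤ 3 / 5 - d3) :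
    0 ≤ 13 / 7500 - 63 / 5000 * d0 + 167 / 5000 * d1 + 499 / 10000 * d2 + 1 / 20 * d3 + 273 / 2500 * d0 ^ 2 - 441 / 10000 * d0 * d1 + 5237 / 5000 * d0 * d2 + 7237 / 10000 * d0 * d3 - 3 / 20 * d1 ^ 2 + 2183 / 5000 * d1 * d2 + 2857 / 2500 * d1 * d3 - 917 / 5000 * d2 ^ 2 + 1551 / 1000 * d2 * d3 - 917 / 5000 * d3 ^ 2 + 1 / 6 * d0 ^ 3 + 441 / 5000 * d0 ^ 2 * d1 - 3429 / 5000 * d0 ^ 2 * d2 - 7599 / 10000 * d0 ^ 2 * d3 + 441 / 5000 * d0 * d1 ^ 2 - 3429 / 5000 * d0 * d2 ^ 2 - 7599 / 10000 * d0 * d3 ^ 2 + 1 / 6 * d1 ^ 3 - 737 / 2000 * d1 ^ 2 * d2 - 957 / 1000 * d1 ^ 2 * d3 - 737 / 2000 * d1 * d2 ^ 2 - 957 / 1000 * d1 * d3 ^ 2 + 1 / 6 * d2 ^ 3 - 12879 / 10000 * d2 ^ 2 * d3 - 12879 / 10000 * d2 * d3 ^ 2 + 1 / 6 * d3 ^ 3 := by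
  have h := cert (y := yv d0 d1 d2 d3 0 0 0 0 0)
    (gs := [(.v 2),
      (.v 3),
      (.v 5),
      (.v 7),
      (.add (.c (3)) (.mul (.c (-5)) (.v 2))),
      (.add (.c (3)) (.mul (.c (-5)) (.v 3))),
      (.add (.c (3)) (.mul (.c (-5)) (.v 5))),
      (.add (.c (3)) (.mul (.c (-5)) (.v 7)))])
    (p := .mul (.c 5000000) (.add (.add (.add (.add (.c (52)) (.add (.mul (.c (-378)) (.v 2)) (.mul (.c (1002)) (.v 3)))) (.add (.add (.mul (.c (3276)) (.mul (.v 2) (.v 2))) (.mul (.c (1497)) (.v 5))) (.add (.mul (.c (-1323)) (.mul (.v 2) (.v 3))) (.mul (.c (1500)) (.v 7))))) (.add (.add (.add (.mul (.c (5000)) (.mul (.mul (.v 2) (.v 2)) (.v 2))) (.mul (.c (-4500)) (.mul (.v 3) (.v 3)))) (.add (.mul (.c (31422)) (.mul (.v 2) (.v 5))) (.mul (.c (2646)) (.mul (.mul (.v 2) (.v 2)) (.v 3))))) (.add (.add (.mul (.c (21711)) (.mul (.v 2) (.v 7))) (.mul (.c (13098)) (.mul (.v 3) (.v 5)))) (.add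 (.mul (.c (2646)) (.mul (.mul (.v 2) (.v 3)) (.v 3))) (.mul (.c (-20574)) (.mul (.mul (.v 2) (.v 2)) (.v 5))))))) (.add (.add (.add (.add (.mul (.c (34284)) (.mul (.v 3) (.v 7))) (.mul (.c (-5502)) (.mul (.v 5) (.v 5)))) (.add (.mul (.c (5000)) (.mul (.mul (.v 3) (.v 3)) (.v 3))) (.mul (.c (-22797)) (.mul (.mul (.v 2) (.v 2)) (.v 7))))) (.add (.add (.mul (.c (46530)) (.mul (.v 5) (.v 7))) (.mul (.c (-11055)) (.mul (.mul (.v 3) (.v 3)) (.v 5)))) (.add (.mul (.c (-5502)) (.mul (.v 7) (.v 7))) (.mul (.c (-20574)) (.mul (.mul (.v 2) (.v 5)) (.v 5)))))) (.add (.add (.add (.mul (.c (-28710)) (.mul (.mul (.v 3) (.v 3)) (.v 7))) (.mul (.c (-11055)) (.mul (.mul (.v 3) (.v 5)) (.v 5)))) (.add (.mul (.c (-22797)) (.mul (.mul (.v 2) (.v 7)) (.v 7))) (.mul (.c (5000)) (.mul (.mul (.v 5) (.v 5)) (.v 5))))) (.add (.add (.mul (.c (-28710)) (.mul (.mul (.v 3) (.v 7)) (.v 7))) (.mul (.c (-38637)) (.mul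 (.mul (.v 5) (.v 5)) (.v 7)))) (.add (.mul (.c (-38637)) (.mul (.mul (.v 5) (.v 7)) (.v 7))) (.mul (.c (5000)) (.mul (.mul (.v 7) (.v 7)) (.v 7)))))))))
    (e := (.add (.add (.add (.mul (.g 2) (.add (.add (.mul (.pp [(1, 840780)]) (.sq [(1, -46), (3, -21), (5, 100), (7, -1)])) (.mul (.g 0) (.add (.add (.pp [(1, 31571550000)]) (.mul (.g 3) (.pp [(1, 1808400000)]))) (.add (.mul (.g 4) (.pp [(1, 20544750000)])) (.add (.mul (.g 5) (.pp [(1, 232320000)])) (.mul (.g 6) (.pp [(1, 20562240000)]))))))) (.add (.mul (.g 3) (.add (.add (.pp [(1, 102600000)]) (.mul (.g 5) (.pp [(1, 206580000)]))) (.add (.mul (.g 6) (.pp [(1, 38623080000)])) (.mul (.g 7) (.pp [(1, 38302950000)]))))) (.add (.mul (.g 1) (.add (.mul (.g 5) (.pp [(1, 9244770000)])) (.add (.mul (.g 6) (.pp [(1, 10640520000)])) (.mul (.g 7) (.pp [(1, 175800000)]))))) (.mul (.g 6) (.mul (.g 6) (.pp [(1, 663624000)]))))))) (.add (.mul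 (.g 1) (.add (.add (.mul (.pp [(1, 13205760)]) (.sq [(1, -8), (2, -8), (3, 25), (5, -9), (7, -7)])) (.add (.mul (.pp [(1, 454605)]) (.sq [(1, -17), (2, 100), (3, 20), (5, 9), (7, 9)])) (.mul (.pp [(1, 1116945)]) (.sq [(1, -48), (2, 55), (3, 100), (5, -17), (7, -18)])))) (.add (.mul (.pp [(1, 231870)]) (.sq [(1, -26), (2, 100), (3, 30), (5, 11), (7, 9)])) (.add (.mul (.g 3) (.add (.mul (.g 0) (.pp [(1, 2404500000)])) (.add (.mul (.g 5) (.pp [(1, 27039810000)])) (.mul (.g 7) (.pp [(1, 28457160000)]))))) (.mul (.g 5) (.mul (.g 5) (.pp [(1, 207402000)]))))))) (.mul (.g 0) (.add (.add (.mul (.pp [(1, 2453295)]) (.sq [(1, -9), (2, 100), (3, 10), (7, -70)])) (.mul (.pp [(1, 300675)]) (.sq [(1, -48), (2, -43), (3, 96), (7, 100)]))) (.add (.mul (.g 0) (.add (.mul (.g 5) (.pp [(1, 61470000)])) (.mul (.g 7) (.pp [(1, 3605790000)])))) (.mul (.g 3) (.add (.mul (.g 4) (.pp [(1, 9104940000)])) (.mul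 (.g 7) (.pp [(1, 23989470000)]))))))))) (.add (.mul (.g 3) (.add (.mul (.pp [(1, 479760)]) (.sq [(1, -14), (2, -25), (3, 13), (5, -23), (7, 50)])) (.add (.mul (.pp [(1, 105840)]) (.sq [(1, -11), (2, -64), (3, -74), (5, -6), (7, 100)])) (.mul (.g 7) (.mul (.g 7) (.pp [(1, 938904000)])))))) (.add (.mul (.g 7) (.add (.mul (.pp [(1, 41844)]) (.sq [(1, -16), (2, 100), (3, 12), (5, 25), (7, 15)])) (.mul (.pp [(1, 237747)]) (.sq [(1, -16), (2, 100), (3, 23), (5, 5), (7, 24)])))) (.mul (.g 4) (.mul (.pp [(1, 3588)]) (.sq [(1, -43), (2, 71), (3, -9), (5, 58), (7, 100)])))))) (.pp [(1, 25371476), (2, 1497549), (3, 1465443), (4, 1431636), (5, 1528512), (6, 1583772), (7, 1495728), (8, 1537465), (9, 1631619), (10, 1481976), (12, 1528215), (14, 1501980), (15, 1471116), (18, 1371840), (20, 1503840), (21, 1429506), (25, 1397379), (27, 1375000), (28, 1512360), (30, 1525350), (35, 1519080), (42, 1348500),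 (45, 1579020), (49, 1546404), (50, 1550160), (63, 1509615), (70, 1529880), (75, 1533060), (98, 1594500), (105, 1386480), (125, 1600000), (147, 1649745), (175, 1433595), (245, 1576620), (343, 1385860)])))
    (by decide +kernel) (yv_nonneg h0 h1 h2 h3 (le_refl 0) (le_refl 0) (le_refl 0) (le_refl 0) (le_refl 0))
    (by
      simp only [List.forall_mem_cons, exadd, exsub, exmul, exc, exv2, exv3, exv5, exv7]
      push_cast
      refine ⟨?_, ?_, ?_, ?_, ?_, ?_, ?_, ?_, fun _ hh => absurd hh List.not_mem_nil⟩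
      · linarith only [h0]
      · linarith only [h1]
      · linarith only [h2]
      · linarith only [h3]
      · linarith only [g0]
      · linarith only [g1]
      · linarith only [g2]
      · linarith only [g3]
    )
  simp only [exadd, exsub, exmul, exc, exv2, exv3, exv5, exv7] at h
  push_cast at h
  linarith only [h]

end Pool.Agent.Helper47.TS
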