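import Pool.Agent.Helper47.TS.C10
import Pool.Agent.Helper47.TS.C11
import Pool.Agent.Helper47.TS.C20
import Pool.Agent.Helper47.TS.C21
import Pool.Agent.Helper47.TS.C30
import Pool.Agent.Helper47.TS.C31
import Pool.Agent.Helper47.TS.C40
import Pool.Agent.Helper47.TS.C41
import Pool.Agent.Helper47.TS.CT

/-!
# The type `(2, 1, 1, 3)`
-/

set_option autoImplicit false

namespace Pool.Agent.Helper47.TS

open Pool.Agent.Helper36.TS Pool.Agent.Helper84.TS Pool.Agent.Helper65.TS Pool.Agent.Helper78.TS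
  Pool.Agent.Helper23.TS

theorem tot_2113 {d1 d2 d3 d4 : ℝ} (h : Hts d1 d2 d3 d4) :
    Tot d1 d2 d3 d4 (n1 d1) (n2 d2) (n3 d3) (n4 d4) (k12 d1 d2) (k13 d1 d3) (k14 d1 d4)
      (k23 d2 d3) (k24 d2 d4) (k34 d3 d4) (W1 d2 d3 d4) (W2 d1 d4 d3) (W3 d1 d4 d2) (W4 d3 d2 d1)
      (l123 d2 d3) (k24 d2 d4) 0 (l213 d1 d3) (l214 d1 d4) 0 (k12 d1 d2)
      (k14 d1 d4 - l214 d1 d4) 0 0 (k13 d1 d3 - l213 d1 d3) (k23 d2 d3 - l123 d2 d3) where
  s12 := by linarith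
  s13 := by linarith
  s14 := by linarith
  s23 := by linarith
  s24 := by linarith
  s34 := by
    simp only [k34]
    have c := sub_nonneg.2 h.c1.le
    have e := sub_nonneg.2 h.e1.le
    linarith [mul_nonneg h.c0 h.e0, mul_nonneg h.c0 e, mul_nonneg c h.e0, mul_nonneg c e]
  tot := by
    have := ctot (d0 := d1) (d1 := d2) (d2 := d3) (d3 := d4) h.a0 h.b0 h.c0 h.e0
      (by linarith [h.a1]) (by linarith [h.b1]) (by linarith [h.c1]) (by linarith [h.e1])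
    simp only [rowc, n1, n2, n3, n4, k12, k13, k14, k23, k24, k34, W1, W2, W3, W4]
    linarith only [this]

/-- **The type `(2, 1, 1, 3)`.** -/
theorem caseT2113 : CaseT2113 := by
  refine caseT2113_of gives_colR fun d1 d2 d3 d4 h =>
    ⟨_, _, _, _, _, _, _, _, _, _, _, _, _, _, _, _, _, _, _, _, _, _, _, _, _, _, tot_2113 h,
      colR_of_colL (col10 h.b0 h.b1.le h.c0 h.c1.le h.e0 h.e1.le)
        (col11 h.b0 h.b1.le h.e0 h.e1.le h.c0 h.c1.le),
      colR_of_colL (col21 h.a0 h.a1.le h.c0 h.c1.le h.e0 h.e1.le)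
        (col20 h.a0 h.a1.le h.e0 h.e1.le h.c0 h.c1.le),
      colR_of_colL (col31 h.a0 h.a1.le h.b0 h.b1.le h.e0 h.e1.le)
        (col30 h.a0 h.a1.le h.e0 h.e1.le h.b0 h.b1.le),
      colR_of_colL (col41 h.c0 h.c1.le h.a0 h.a1.le h.b0 h.b1.le)
        (col40 h.c0 h.c1.le h.b0 h.b1.le h.a0 h.a1.le)⟩

end Pool.Agent.Helper47.TS
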