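import Pool.Agent.Helper65.TS.Col
import Pool.Agent.Helper78.TS.Asm
import Pool.Agent.Helper19.TS.Slot

/-!
# A column with free shares of the slacks

As in `Helper65.TS.Col`, but the share `L` of the slack of the pair `{e, T}` is free. `ColL` collects
polynomial inequalities, one for each state of the column with the order `e`, `M`, `T` of the
entries; the two orders give the column inequality `ColR`.
-/

set_option autoImplicit false

namespace Pool.Agent.Helper47.TS

open Pool.Agent.Helper36.TS Pool.Agent.Helper84.TS Pool.Agent.Helper65.TS Pool.Agent.Helper78.TS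
  Pool.Agent.Helper23.TS

/-- **The inequalities of a column.** `N`: no far cell; `A1`, `A2`: a far cell of the class `e`, kind
A (`X = 1 - al`); `B1`, `B2`, `B3`: kind B; `ZM`, `ZT`: a far cell of the class `M`, `T`. -/
structure ColL (nT nM ne kT kM k L de dT dM W : ℝ) : Prop where
  L0 : 0 ≤ L
  nT0 : 0 ≤ nT - L
  cM0 : 0 ≤ nM - k
  ce0 : 0 ≤ ne - kT - kM
  N : ∀ ue uM uT : ℝ, 0 ≤ ue → ue ≤ uM → uM ≤ uT → uT ≤ 1 →
    sp nT dT uT + sp (nM - k) dM uM + sp (ne - kT - kM) de ue ≤ W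
  A1 : ∀ p n uM uT w X : ℝ, 0 ≤ p → 0 ≤ n → 0 ≤ w → w ≤ 13 / 20 → w ≤ X → 2 * X ≤ 1 + w →
    uT ≤ 1 - X + dT → uT ≤ 1 → uM ≤ uT → p - n ≤ de - w → n ≤ 1 - de → p ≤ uM →
    sp nT dT uT + sp (nM - k) dM uM + (sp (ne - kT - kM) de p + sn (ne - kT - kM) de n)
      + (w * X * (1 + w - X) - w ^ 3 / 3) ≤ W
  A2 : ∀ p n uM uT w X : ℝ, 0 ≤ p → 0 ≤ n → 0 ≤ X → X ≤ w → w ≤ 13 / 20 →
    uT ≤ 1 - X + dT → uT ≤ 1 → uM ≤ uT → p - n ≤ de - w → n ≤ 1 - de → p ≤ uM →
    sp nT dT uT + sp (nM - k) dM uM + (sp (ne - kT - kM) de p + sn (ne - kT - kM) de n)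
      + (w * X - X ^ 3 / 3) ≤ W
  B1 : ∀ p n uM uT w : ℝ, 0 ≤ p → 0 ≤ n → 0 ≤ w → w ≤ 13 / 20 →
    uT ≤ 1 → uM ≤ uT → p - n ≤ de - w → n ≤ 1 - de → p ≤ uM →
    sp (nT - L) dT uT + sp (nM - k) dM uM
      + (sp (ne - kT - kM) de p + sn (ne - kT - kM) de n)
      + (w * (1 + w) ^ 2 / 4 - w ^ 3 / 3) - L * w ≤ W
  B2 : ∀ uM uT w dF : ℝ, 0 ≤ uM → uM ≤ uT → uT ≤ 1 → 0 ≤ w → w ≤ 13 / 20 → de ≤ dF → dF ≤ 1 →
    0 ≤ de - dF + uT + w →
    sp nT dT uT + sp (nM - k) dM uM + sn (ne - kT - kM) de w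
      + (w * (1 + w - dF) ^ 2 / 4 - w ^ 3 / 4) - L * (de - dF + uT + w) ≤ W
  B3 : ∀ uM uT w : ℝ, 0 ≤ uM → uM ≤ uT → 0 ≤ w → w ≤ 13 / 20 → uT ≤ 1 - de - w →
    sp nT dT uT + sp (nM - k) dM uM + sn (ne - kT - kM) de w
      + (w * (1 - de - uT) ^ 2 / 4 - w ^ 3 / 4) ≤ W
  ZM : ∀ p n q r uT w : ℝ, 0 ≤ p → 0 ≤ n → 0 ≤ q → 0 ≤ r → p ≤ uT → uT ≤ 1 → 0 ≤ w →
    w ≤ 13 / 20 → p - n ≤ dM - w → n ≤ 1 - dM → q - r ≤ p - n → r ≤ 1 - de →
    sp nT dT uT + (sp (nM - k) dM p + sn (nM - k) dM n)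
      + (sp (ne - kT - kM) de q + sn (ne - kT - kM) de r)
      + (w * (1 + w) ^ 2 / 4 - w ^ 3 / 3) ≤ W
  ZT : ∀ p n ue uM w : ℝ, 0 ≤ ue → ue ≤ uM → uM ≤ p → 0 ≤ n → 0 ≤ w → w ≤ 13 / 20 →
    p - n ≤ dT - w → n ≤ 1 - dT →
    (sp nT dT p + sn nT dT n) + sp (nM - k) dM uM + sp (ne - kT - kM) de ue
      + (w * (1 + w) ^ 2 / 4 - w ^ 3 / 3) ≤ W

section

variable {nT nM ne kT kM k L de dT dM W ue uM uT : ℝ}

/-- the value of the column -/
theorem ColL.none (C : ColL nT nM ne kT kM k L de dT dM W) (E : Ent de dT dM ue uM uT) :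
    sx nT dT uT + sx (nM - k) dM uM + sx (ne - kT - kM) de ue ≤ W := by
  have hT := sx_le_sp (by linarith [C.nT0, C.L0] : 0 ≤ nT) (by linarith [E.hT]) E.lT E.T1
  have hM := sx_le_sp C.cM0 (by linarith [E.hM]) E.lM (E.MT.trans E.T1)
  have he := sx_le_sp C.ce0 (by linarith [E.he]) E.le (E.eM.trans (E.MT.trans E.T1))
  have := C.N (max ue 0) (max uM 0) (max uT 0) (le_max_right _ _) (max_le_max_right 0 E.eM)
    (max_le_max_right 0 E.MT) (max_le E.T1 zero_le_one)
  linarith

theorem own_le {f w dF al be ui ux uy di dx dy sx' sy : ℝ}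
    (F : FarC f w dF al be ui ux uy di dx dy sx' sy) (hd : 0 ≤ di)
    (own : w ≤ -ui + max (di - dF) 0) : ui ≤ di - w := by
  rcases le_total 0 (di - dF) with h | h
  · rw [max_eq_left h] at own
    linarith [F.d0]
  · rw [max_eq_right h] at own
    linarith

/-- a far cell of the lowest class -/
theorem ColL.low (C : ColL nT nM ne kT kM k L de dT dM W) (E : Ent de dT dM ue uM uT)
    {f w dF al be sT sM : ℝ} (F : FarC f w dF al be ue uT uM de dT dM sT sM) (hs : 0 ≤ sT)
    (hw : w ≤ 13 / 20) (own : w ≤ -ue + max (de - dF) 0) :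
    sx nT dT uT + sx (nM - k) dM uM + sx (ne - kT - kM) de ue + f ≤ W + L * sT := by
  obtain ⟨v1, v2, v3, v4⟩ := farC_vol F
  have w0 := F.w0.le
  have hT := sx_le_sp (by linarith [C.nT0, C.L0] : 0 ≤ nT) (by linarith [E.hT]) E.lT E.T1
  have hM := sx_le_sp C.cM0 (by linarith [E.hM]) E.lM (E.MT.trans E.T1)
  have he := sx_pn (c := ne - kT - kM) (d := de) (E.eM.trans (E.MT.trans E.T1))
  have hks : 0 ≤ L * sT := mul_nonneg C.L0 hs
  have hown : ue ≤ de - w := own_le F E.e0 own
  have h1 := pn_sub ue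
  have p0 := le_max_right ue 0
  have n0 := le_max_right (-ue) 0
  have m1 := max_le_max_right 0 E.MT
  have m2 := max_le_max_right 0 E.eM
  have m3 : max uT 0 ≤ 1 := max_le E.T1 zero_le_one
  have n1 := neg_le_of (by linarith [E.he] : de ≤ 1) E.le
  have t1 : uT ≤ 2 - w := by linarith [E.T1]
  have capx := F.capx
  rw [min_eq_left t1, min_eq_left (E.eM.trans E.MT)] at capx
  rcases capx with hA | hB
  · -- kind A
    rcases le_total (1 + w) (2 * (1 - al)) with hX | hX
    · -- the cap is weaker than the one for `X = (1 + w)/2`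
      have hcap : max uT 0 ≤ 1 - (1 + w) / 2 + dT :=
        max_le (by linarith) (by linarith [E.T0, F.w1])
      have := C.A1 _ _ _ _ w ((1 + w) / 2) p0 n0 w0 hw (by linarith [F.w1]) (by linarith) hcap m3
        m1 (by linarith) n1 m2
      have e : w * ((1 + w) / 2) * (1 + w - (1 + w) / 2) - w ^ 3 / 3 =
        w * (1 + w) ^ 2 / 4 - w ^ 3 / 3 := by ring
      linarith
    · have hcap : max uT 0 ≤ 1 - (1 - al) + dT :=
        max_le (by linarith) (by linarith [E.T0, F.w1])
      rcases le_total w (1 - al) with hXw | hXw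
      · have := C.A1 _ _ _ _ w (1 - al) p0 n0 w0 hw hXw hX hcap m3 m1 (by linarith) n1 m2
        have := v1 hXw hX
        linarith
      · have := C.A2 _ _ _ _ w (1 - al) p0 n0 (by linarith [F.al1]) hXw hw hcap m3 m1
          (by linarith) n1 m2
        have := v2 hXw
        linarith
  · -- kind B
    rcases le_total dF de with hd | hd
    · rw [max_eq_left (by linarith : 0 ≤ de - dF)] at own
      have h2 := sx_le_sp C.nT0 (by linarith [E.hT]) E.lT E.T1
      rw [Pool.Agent.Helper65.TS.sx_sub] at h2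
      have h3 : L * (uT + w) ≤ L * sT :=
        mul_le_mul_of_nonneg_left (by linarith) C.L0
      have := C.B1 _ _ _ _ w p0 n0 w0 hw m3 m1 (by linarith) n1 m2
      linarith
    · rw [max_eq_right (by linarith : de - dF ≤ 0)] at own
      -- the slot of the lowest class
      have hle : ue ≤ 0 := by linarith
      have hw1 : w ≤ 1 - de := by linarith [E.le]
      have h4 : sx (ne - kT - kM) de ue ≤ sn (ne - kT - kM) de w := by
        rw [he, max_eq_right hle, max_eq_left (by linarith : 0 ≤ -ue)]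
        have h5 := sn_anti (d := de) C.ce0 w0 (by linarith : w ≤ -ue) (by linarith [E.le])
        have h6 : sp (ne - kT - kM) de 0 = 0 := by rw [sp]; ring
        linarith
      have mM0 := le_max_right uM 0
      rcases le_total 0 (de - dF + max uT 0 + w) with hs1 | hs1
      · have h2 := sx_le_sp C.nT0 (by linarith [E.hT]) E.lT E.T1
        rw [Pool.Agent.Helper65.TS.sx_sub, sp_sub] at h2
        have h3 : L * (de - dF + uT + w) ≤ L * sT :=
          mul_le_mul_of_nonneg_left (by linarith) C.L0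
        have := C.B2 _ _ w dF mM0 m1 m3 w0 hw hd F.d1.le hs1
        linarith
      · have h7 : 0 ≤ max uT 0 := le_max_right _ _
        have h8 : (1 + w - dF) ^ 2 ≤ (1 - de - max uT 0) ^ 2 :=
          pow_le_pow_left₀ (by linarith [F.d1]) (by linarith) 2
        have h9 : w * (1 + w - dF) ^ 2 ≤ w * (1 - de - max uT 0) ^ 2 :=
          mul_le_mul_of_nonneg_left h8 w0
        have := C.B3 _ _ w mM0 m1 w0 hw (by linarith [F.d1] : max uT 0 ≤ 1 - de - w)
        linarith

/-- a far cell of the middle class -/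
theorem ColL.mid (C : ColL nT nM ne kT kM k L de dT dM W) (E : Ent de dT dM ue uM uT)
    {f w : ℝ} (hf : f ≤ w * (1 + w) ^ 2 / 4 - w ^ 3 / 3) (hw0 : 0 ≤ w) (hw : w ≤ 13 / 20)
    (own : uM ≤ dM - w) :
    sx nT dT uT + sx (nM - k) dM uM + sx (ne - kT - kM) de ue + f ≤ W := by
  have hT := sx_le_sp (by linarith [C.nT0, C.L0] : 0 ≤ nT) (by linarith [E.hT]) E.lT E.T1
  have hM := sx_pn (c := nM - k) (d := dM) (E.MT.trans E.T1)
  have he := sx_pn (c := ne - kT - kM) (d := de) (E.eM.trans (E.MT.trans E.T1))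
  have h1 := pn_sub ue
  have h2 := pn_sub uM
  have := C.ZM (max uM 0) (max (-uM) 0) (max ue 0) (max (-ue) 0) (max uT 0) w (le_max_right _ _)
    (le_max_right _ _) (le_max_right _ _) (le_max_right _ _) (max_le_max_right 0 E.MT)
    (max_le E.T1 zero_le_one) hw0 hw (by linarith) (neg_le_of (by linarith [E.hM]) E.lM)
    (by linarith [E.eM]) (neg_le_of (by linarith [E.he]) E.le)
  linarith

/-- a far cell of the highest class -/
theorem ColL.top (C : ColL nT nM ne kT kM k L de dT dM W) (E : Ent de dT dM ue uM uT)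
    {f w : ℝ} (hf : f ≤ w * (1 + w) ^ 2 / 4 - w ^ 3 / 3) (hw0 : 0 ≤ w) (hw : w ≤ 13 / 20)
    (own : uT ≤ dT - w) :
    sx nT dT uT + sx (nM - k) dM uM + sx (ne - kT - kM) de ue + f ≤ W := by
  have hT := sx_pn (c := nT) (d := dT) E.T1
  have hM := sx_le_sp C.cM0 (by linarith [E.hM]) E.lM (E.MT.trans E.T1)
  have he := sx_le_sp C.ce0 (by linarith [E.he]) E.le (E.eM.trans (E.MT.trans E.T1))
  have h2 := pn_sub uT
  have := C.ZT (max uT 0) (max (-uT) 0) (max ue 0) (max uM 0) w (le_max_right _ _)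
    (max_le_max_right 0 E.eM) (max_le_max_right 0 E.MT) (le_max_right _ _) hw0 hw (by linarith)
    (neg_le_of (by linarith [E.hT]) E.lT)
  linarith

end

section

variable {ne na nb ka kb K La Lb W de da db ue ua ub : ℝ}

theorem ent_of {dT dM uT uM : ℝ} (re : Row de ue) (rT : Row dT uT) (rM : Row dM uM)
    (h1 : ue ≤ uM) (h2 : uM ≤ uT) : Ent de dT dM ue uM uT :=
  ⟨re.d1.le, rT.d1.le, rM.d1.le, re.d0, rT.d0, rM.d0, by linarith [re.lo], by linarith [rM.lo],
    by linarith [rT.lo], h1, h2, rT.hi⟩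

theorem cval_ab (h : ub ≤ ua) : Cval ne na nb ka kb K de da db ue ua ub =
    sx na da ua + sx (nb - K) db ub + sx (ne - ka - kb) de ue := by
  unfold Cval
  rw [min_eq_right h, Pool.Agent.Helper65.TS.sx_sub, Pool.Agent.Helper65.TS.sx_sub,
    Pool.Agent.Helper65.TS.sx_sub]
  ring

theorem cval_ba (h : ua ≤ ub) : Cval ne na nb ka kb K de da db ue ua ub =
    sx nb db ub + sx (na - K) da ua + sx (ne - kb - ka) de ue := by
  unfold Cval
  rw [min_eq_left h, Pool.Agent.Helper65.TS.sx_sub, Pool.Agent.Helper65.TS.sx_sub,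
    Pool.Agent.Helper65.TS.sx_sub]
  ring

/-- **The column from the two orders.** -/
theorem colR_of_colL (C1 : ColL na nb ne ka kb K La de da db W)
    (C2 : ColL nb na ne kb ka K Lb de db da W) :
    ColR ne na nb ka kb K La Lb 0 W de da db where
  la := C1.L0
  lb := C2.L0
  lab := le_rfl
  none := by
    intro ue ua ub re ra rb h1 h2
    rcases le_total ub ua with h | h
    · rw [cval_ab h]
      exact C1.none (ent_of re ra rb h2 h)
    · rw [cval_ba h]
      exact C2.none (ent_of re rb ra h1 h)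
  low := by
    intro ue ua ub f w d al be sa sb re ra rb h1 h2 F own hw hf ha hb
    have ta := mul_nonneg C1.L0 ha
    have tb := mul_nonneg C2.L0 hb
    rcases le_total ub ua with h | h
    · rw [cval_ab h]
      have := C1.low (ent_of re ra rb h2 h) F ha hw own
      linarith
    · rw [cval_ba h]
      have := C2.low (ent_of re rb ra h1 h) (Pool.Agent.Helper19.TS.FarC_swap F) hb hw own
      linarith
  fa := by
    intro ue ua ub f w d al be se sb re ra rb h1 h2 F own hw hf he hb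
    have ta := mul_nonneg C1.L0 he
    have hv := (farC_vol F).2.2.2
    have ho := own_le F ra.d0 own
    rcases le_total ub ua with h | h
    · rw [cval_ab h]
      have := C1.top (ent_of re ra rb h2 h) hv F.w0.le hw ho
      linarith
    · rw [cval_ba h]
      have := C2.mid (ent_of re rb ra h1 h) hv F.w0.le hw ho
      linarith
  fb := by
    intro ue ua ub f w d al be se sa re ra rb h1 h2 F own hw hf he ha
    have tb := mul_nonneg C2.L0 he
    have hv := (farC_vol F).2.2.2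
    have ho := own_le F rb.d0 own
    rcases le_total ub ua with h | h
    · rw [cval_ab h]
      have := C1.mid (ent_of re ra rb h2 h) hv F.w0.le hw ho
      linarith
    · rw [cval_ba h]
      have := C2.top (ent_of re rb ra h1 h) hv F.w0.le hw ho
      linarith

end

end Pool.Agent.Helper47.TS
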