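import Pool.Agent.Helper83.Cert.Check
import Pool.Agent.Helper47.TS.Col

/-!
# Certificates for the eight states of a column

The variables of the certificates: `v 2, v 3, v 5` the heights `de, dT, dM`, the others as in `ColL`
(`v 7, v 11, ..` in the order in which `yv` lists them). The numbers `nT`, `nM - k`, .. , `W` are
given by expressions with the value `10000` times the number; the polynomials are `120000` times the
inequality.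
-/

set_option autoImplicit false
set_option linter.unusedSimpArgs false

namespace Pool.Agent.Helper47.TS

open Pool.Agent.Helper83.Cert Pool.Agent.Helper65.TS

/-- the value of an expression in the three heights -/
structure Dt (x y z : ℝ) (E : Ex) (r : ℝ) : Prop where
  h : ∀ a b c d e f : ℝ, exVal (yv x y z a b c d e f) E = 10000 * r

theorem Dt.sub {x y z : ℝ} {E F : Ex} {r t : ℝ} (h1 : Dt x y z E r) (h2 : Dt x y z F t) :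
    Dt x y z (Ex.sub E F) (r - t) :=
  ⟨fun a b c d e f => by rw [exsub, h1.h, h2.h]; ring⟩

/-- the heights -/
structure Bd (de dT dM : ℝ) : Prop where
  e0 : 0 ≤ de
  T0 : 0 ≤ dT
  M0 : 0 ≤ dM
  e1 : de ≤ 3 / 5
  T1 : dT ≤ 3 / 5
  M1 : dM ≤ 3 / 5

/-- `120000 sp` -/
def spE (C D U : Ex) : Ex :=
  Ex.sub (Ex.mul (Ex.mul (Ex.c 12) C) U)
    (Ex.mul (Ex.mul (Ex.mul (Ex.c 60000) (Ex.sub (Ex.c 1) D)) U) U)

/-- `120000 sn` -/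
def snE (C D U : Ex) : Ex :=
  Ex.sub (Ex.mul (Ex.mul (Ex.mul (Ex.c 40000) U) U) U)
    (Ex.add (Ex.mul (Ex.mul (Ex.c 12) C) U)
      (Ex.mul (Ex.mul (Ex.mul (Ex.c 60000) (Ex.sub (Ex.c 1) D)) U) U))

theorem spE_val {Y : ℕ → ℝ} {C D U : Ex} {c d u : ℝ} (h1 : exVal Y C = 10000 * c)
    (h2 : exVal Y D = d) (h3 : exVal Y U = u) : exVal Y (spE C D U) = 120000 * sp c d u := by
  simp only [spE, exsub, exmul, exc, h1, h2, h3]
  unfold sp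
  push_cast
  ring

theorem snE_val {Y : ℕ → ℝ} {C D U : Ex} {c d u : ℝ} (h1 : exVal Y C = 10000 * c)
    (h2 : exVal Y D = d) (h3 : exVal Y U = u) : exVal Y (snE C D U) = 120000 * sn c d u := by
  simp only [snE, exadd, exsub, exmul, exc, h1, h2, h3]
  unfold sn
  push_cast
  ring

theorem fin_of {M : ℤ} (hM : 0 < M) {t : ℝ} (h : 0 ≤ (M : ℝ) * (120000 * t)) : 0 ≤ t := by
  have h1 : (0 : ℝ) < (M : ℝ) := by exact_mod_cast hM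
  have h2 := (mul_nonneg_iff_of_pos_left h1).1 h
  linarith

/-! ### The constraints and the polynomials -/

def gN : List Ex :=
    [Ex.v 2, Ex.v 3, Ex.v 5, Ex.v 7, Ex.v 11, Ex.v 13, Ex.sub (Ex.c 3) (Ex.mul (Ex.c 5) (Ex.v
    2)), Ex.sub (Ex.c 3) (Ex.mul (Ex.c 5) (Ex.v 3)), Ex.sub (Ex.c 3) (Ex.mul (Ex.c 5) (Ex.v 5)),
    Ex.sub (Ex.v 11) (Ex.v 7), Ex.sub (Ex.v 13) (Ex.v 11), Ex.sub (Ex.c 1) (Ex.v 13)]

def gA1 : List Ex :=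
    [Ex.v 2, Ex.v 3, Ex.v 5, Ex.v 7, Ex.v 11, Ex.v 13, Ex.v 17, Ex.v 19, Ex.v 23, Ex.sub (Ex.c 3)
    (Ex.mul (Ex.c 5) (Ex.v 2)), Ex.sub (Ex.c 3) (Ex.mul (Ex.c 5) (Ex.v 3)), Ex.sub (Ex.c 3)
    (Ex.mul (Ex.c 5) (Ex.v 5)), Ex.sub (Ex.c 13) (Ex.mul (Ex.c 20) (Ex.v 19)), Ex.sub (Ex.v 23)
    (Ex.v 19), Ex.sub (Ex.add (Ex.c 1) (Ex.v 19)) (Ex.mul (Ex.c 2) (Ex.v 23)), Ex.sub (Ex.add
    (Ex.sub (Ex.c 1) (Ex.v 23)) (Ex.v 3)) (Ex.v 13), Ex.sub (Ex.c 1) (Ex.v 13), Ex.sub (Ex.v 13)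
    (Ex.v 17), Ex.add (Ex.sub (Ex.sub (Ex.v 2) (Ex.v 19)) (Ex.v 7)) (Ex.v 11), Ex.sub (Ex.sub
    (Ex.c 1) (Ex.v 2)) (Ex.v 11), Ex.sub (Ex.v 17) (Ex.v 7)]

def gA2 : List Ex :=
    [Ex.v 2, Ex.v 3, Ex.v 5, Ex.v 7, Ex.v 11, Ex.v 13, Ex.v 17, Ex.v 19, Ex.v 23, Ex.sub (Ex.c 3)
    (Ex.mul (Ex.c 5) (Ex.v 2)), Ex.sub (Ex.c 3) (Ex.mul (Ex.c 5) (Ex.v 3)), Ex.sub (Ex.c 3)
    (Ex.mul (Ex.c 5) (Ex.v 5)), Ex.sub (Ex.c 13) (Ex.mul (Ex.c 20) (Ex.v 19)), Ex.sub (Ex.v 19)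
    (Ex.v 23), Ex.sub (Ex.add (Ex.sub (Ex.c 1) (Ex.v 23)) (Ex.v 3)) (Ex.v 13), Ex.sub (Ex.c 1)
    (Ex.v 13), Ex.sub (Ex.v 13) (Ex.v 17), Ex.add (Ex.sub (Ex.sub (Ex.v 2) (Ex.v 19)) (Ex.v 7))
    (Ex.v 11), Ex.sub (Ex.sub (Ex.c 1) (Ex.v 2)) (Ex.v 11), Ex.sub (Ex.v 17) (Ex.v 7)]

def gB1 : List Ex :=
    [Ex.v 2, Ex.v 3, Ex.v 5, Ex.v 7, Ex.v 11, Ex.v 13, Ex.v 17, Ex.v 19, Ex.sub (Ex.c 3) (Ex.mul
    (Ex.c 5) (Ex.v 2)), Ex.sub (Ex.c 3) (Ex.mul (Ex.c 5) (Ex.v 3)), Ex.sub (Ex.c 3) (Ex.mul (Ex.c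
    5) (Ex.v 5)), Ex.sub (Ex.c 13) (Ex.mul (Ex.c 20) (Ex.v 19)), Ex.sub (Ex.c 1) (Ex.v 13),
    Ex.sub (Ex.v 13) (Ex.v 17), Ex.add (Ex.sub (Ex.sub (Ex.v 2) (Ex.v 19)) (Ex.v 7)) (Ex.v 11),
    Ex.sub (Ex.sub (Ex.c 1) (Ex.v 2)) (Ex.v 11), Ex.sub (Ex.v 17) (Ex.v 7)]

def gB2 : List Ex :=
    [Ex.v 2, Ex.v 3, Ex.v 5, Ex.v 7, Ex.v 11, Ex.v 13, Ex.v 17, Ex.sub (Ex.c 3) (Ex.mul (Ex.c 5)
    (Ex.v 2)), Ex.sub (Ex.c 3) (Ex.mul (Ex.c 5) (Ex.v 3)), Ex.sub (Ex.c 3) (Ex.mul (Ex.c 5) (Ex.v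
    5)), Ex.sub (Ex.c 13) (Ex.mul (Ex.c 20) (Ex.v 13)), Ex.sub (Ex.c 1) (Ex.v 7), Ex.sub (Ex.v 7)
    (Ex.v 11), Ex.sub (Ex.v 17) (Ex.v 2), Ex.sub (Ex.c 1) (Ex.v 17), Ex.add (Ex.add (Ex.sub (Ex.v
    2) (Ex.v 17)) (Ex.v 7)) (Ex.v 13)]

def gB3 : List Ex :=
    [Ex.v 2, Ex.v 3, Ex.v 5, Ex.v 7, Ex.v 11, Ex.v 13, Ex.sub (Ex.c 3) (Ex.mul (Ex.c 5) (Ex.v
    2)), Ex.sub (Ex.c 3) (Ex.mul (Ex.c 5) (Ex.v 3)), Ex.sub (Ex.c 3) (Ex.mul (Ex.c 5) (Ex.v 5)),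
    Ex.sub (Ex.c 13) (Ex.mul (Ex.c 20) (Ex.v 13)), Ex.sub (Ex.v 7) (Ex.v 11), Ex.sub (Ex.sub
    (Ex.sub (Ex.c 1) (Ex.v 2)) (Ex.v 13)) (Ex.v 7)]

def gZM : List Ex :=
    [Ex.v 2, Ex.v 3, Ex.v 5, Ex.v 7, Ex.v 11, Ex.v 13, Ex.v 17, Ex.v 19, Ex.v 23, Ex.sub (Ex.c 3)
    (Ex.mul (Ex.c 5) (Ex.v 2)), Ex.sub (Ex.c 3) (Ex.mul (Ex.c 5) (Ex.v 3)), Ex.sub (Ex.c 3)
    (Ex.mul (Ex.c 5) (Ex.v 5)), Ex.sub (Ex.c 13) (Ex.mul (Ex.c 20) (Ex.v 23)), Ex.sub (Ex.c 1)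
    (Ex.v 19), Ex.sub (Ex.v 19) (Ex.v 7), Ex.add (Ex.sub (Ex.sub (Ex.v 5) (Ex.v 23)) (Ex.v 7))
    (Ex.v 11), Ex.sub (Ex.sub (Ex.c 1) (Ex.v 5)) (Ex.v 11), Ex.add (Ex.sub (Ex.sub (Ex.v 7) (Ex.v
    11)) (Ex.v 13)) (Ex.v 17), Ex.sub (Ex.sub (Ex.c 1) (Ex.v 2)) (Ex.v 17)]

def gZT : List Ex :=
    [Ex.v 2, Ex.v 3, Ex.v 5, Ex.v 7, Ex.v 11, Ex.v 13, Ex.v 17, Ex.v 19, Ex.sub (Ex.c 3) (Ex.mul
    (Ex.c 5) (Ex.v 2)), Ex.sub (Ex.c 3) (Ex.mul (Ex.c 5) (Ex.v 3)), Ex.sub (Ex.c 3) (Ex.mul (Ex.c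
    5) (Ex.v 5)), Ex.sub (Ex.c 13) (Ex.mul (Ex.c 20) (Ex.v 19)), Ex.sub (Ex.v 7) (Ex.v 17),
    Ex.sub (Ex.v 17) (Ex.v 13), Ex.add (Ex.sub (Ex.sub (Ex.v 3) (Ex.v 19)) (Ex.v 7)) (Ex.v 11),
    Ex.sub (Ex.sub (Ex.c 1) (Ex.v 3)) (Ex.v 11)]

section

variable (NT CM CE LE WE : Ex)

def pN : Ex :=
    Ex.sub (Ex.mul (Ex.c 12) WE) (Ex.add (Ex.add (spE NT (Ex.v 3) (Ex.v 13)) (spE CM (Ex.v 5)
    (Ex.v 11))) (spE CE (Ex.v 2) (Ex.v 7)))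

def pA1 : Ex :=
    Ex.sub (Ex.mul (Ex.c 12) WE) (Ex.add (Ex.add (Ex.add (spE NT (Ex.v 3) (Ex.v 13)) (spE CM
    (Ex.v 5) (Ex.v 17))) (Ex.add (spE CE (Ex.v 2) (Ex.v 7)) (snE CE (Ex.v 2) (Ex.v 11)))) (Ex.sub
    (Ex.mul (Ex.mul (Ex.mul (Ex.c 120000) (Ex.v 19)) (Ex.v 23)) (Ex.sub (Ex.add (Ex.c 1) (Ex.v
    19)) (Ex.v 23))) (Ex.mul (Ex.mul (Ex.mul (Ex.c 40000) (Ex.v 19)) (Ex.v 19)) (Ex.v 19))))

def pA2 : Ex :=
    Ex.sub (Ex.mul (Ex.c 12) WE) (Ex.add (Ex.add (Ex.add (spE NT (Ex.v 3) (Ex.v 13)) (spE CM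
    (Ex.v 5) (Ex.v 17))) (Ex.add (spE CE (Ex.v 2) (Ex.v 7)) (snE CE (Ex.v 2) (Ex.v 11)))) (Ex.sub
    (Ex.mul (Ex.mul (Ex.c 120000) (Ex.v 19)) (Ex.v 23)) (Ex.mul (Ex.mul (Ex.mul (Ex.c 40000)
    (Ex.v 23)) (Ex.v 23)) (Ex.v 23))))

def pB1 : Ex :=
    Ex.sub (Ex.mul (Ex.c 12) WE) (Ex.sub (Ex.add (Ex.add (Ex.add (spE (Ex.sub NT LE) (Ex.v 3)
    (Ex.v 13)) (spE CM (Ex.v 5) (Ex.v 17))) (Ex.add (spE CE (Ex.v 2) (Ex.v 7)) (snE CE (Ex.v 2)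
    (Ex.v 11)))) (Ex.sub (Ex.mul (Ex.mul (Ex.mul (Ex.c 30000) (Ex.v 19)) (Ex.add (Ex.c 1) (Ex.v
    19))) (Ex.add (Ex.c 1) (Ex.v 19))) (Ex.mul (Ex.mul (Ex.mul (Ex.c 40000) (Ex.v 19)) (Ex.v 19))
    (Ex.v 19)))) (Ex.mul (Ex.mul (Ex.c 12) LE) (Ex.v 19)))

def pB2 : Ex :=
    Ex.sub (Ex.mul (Ex.c 12) WE) (Ex.sub (Ex.add (Ex.add (Ex.add (spE NT (Ex.v 3) (Ex.v 7)) (spE
    CM (Ex.v 5) (Ex.v 11))) (snE CE (Ex.v 2) (Ex.v 13))) (Ex.sub (Ex.mul (Ex.mul (Ex.mul (Ex.c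
    30000) (Ex.v 13)) (Ex.sub (Ex.add (Ex.c 1) (Ex.v 13)) (Ex.v 17))) (Ex.sub (Ex.add (Ex.c 1)
    (Ex.v 13)) (Ex.v 17))) (Ex.mul (Ex.mul (Ex.mul (Ex.c 30000) (Ex.v 13)) (Ex.v 13)) (Ex.v
    13)))) (Ex.mul (Ex.mul (Ex.c 12) LE) (Ex.add (Ex.add (Ex.sub (Ex.v 2) (Ex.v 17)) (Ex.v 7))
    (Ex.v 13))))

def pB3 : Ex :=
    Ex.sub (Ex.mul (Ex.c 12) WE) (Ex.add (Ex.add (Ex.add (spE NT (Ex.v 3) (Ex.v 7)) (spE CM (Ex.v
    5) (Ex.v 11))) (snE CE (Ex.v 2) (Ex.v 13))) (Ex.sub (Ex.mul (Ex.mul (Ex.mul (Ex.c 30000)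
    (Ex.v 13)) (Ex.sub (Ex.sub (Ex.c 1) (Ex.v 2)) (Ex.v 7))) (Ex.sub (Ex.sub (Ex.c 1) (Ex.v 2))
    (Ex.v 7))) (Ex.mul (Ex.mul (Ex.mul (Ex.c 30000) (Ex.v 13)) (Ex.v 13)) (Ex.v 13))))

def pZM : Ex :=
    Ex.sub (Ex.mul (Ex.c 12) WE) (Ex.add (Ex.add (Ex.add (spE NT (Ex.v 3) (Ex.v 19)) (Ex.add (spE
    CM (Ex.v 5) (Ex.v 7)) (snE CM (Ex.v 5) (Ex.v 11)))) (Ex.add (spE CE (Ex.v 2) (Ex.v 13)) (snE
    CE (Ex.v 2) (Ex.v 17)))) (Ex.sub (Ex.mul (Ex.mul (Ex.mul (Ex.c 30000) (Ex.v 23)) (Ex.add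
    (Ex.c 1) (Ex.v 23))) (Ex.add (Ex.c 1) (Ex.v 23))) (Ex.mul (Ex.mul (Ex.mul (Ex.c 40000) (Ex.v
    23)) (Ex.v 23)) (Ex.v 23))))

def pZT : Ex :=
    Ex.sub (Ex.mul (Ex.c 12) WE) (Ex.add (Ex.add (Ex.add (Ex.add (spE NT (Ex.v 3) (Ex.v 7)) (snE
    NT (Ex.v 3) (Ex.v 11))) (spE CM (Ex.v 5) (Ex.v 17))) (spE CE (Ex.v 2) (Ex.v 13))) (Ex.sub
    (Ex.mul (Ex.mul (Ex.mul (Ex.c 30000) (Ex.v 19)) (Ex.add (Ex.c 1) (Ex.v 19))) (Ex.add (Ex.c 1)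
    (Ex.v 19))) (Ex.mul (Ex.mul (Ex.mul (Ex.c 40000) (Ex.v 19)) (Ex.v 19)) (Ex.v 19))))

end

/-! ### The inequalities -/

section

variable {de dT dM nT cM ce L W : ℝ} {NT CM CE LE WE : Ex} {M : ℤ} {e : NN}

theorem kN_of (hb : Bd de dT dM) (hT : Dt de dT dM NT nT) (hM : Dt de dT dM CM cM) (he : Dt de dT dM CE ce) (hW : Dt de dT dM WE W)
    (hM0 : 0 < M)
    (h : check (gN.map exPol) (exPol (Ex.mul (Ex.c M) (pN NT CM CE WE))) e = true) :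
    ∀ ue uM uT : ℝ, 0 ≤ ue → ue ≤ uM → uM ≤ uT → uT ≤ 1 →
    sp nT dT uT + sp cM dM uM + sp ce de ue ≤ W := by
  intro ue uM uT a1 a2 a3 a4
  have n_uM : 0 ≤ uM := by linarith [hb.e0]
  have n_uT : 0 ≤ uT := by linarith [hb.e0]
  have k := cert (y := yv de dT dM ue uM uT 0 0 0) h
    (yv_nonneg hb.e0 hb.T0 hb.M0 a1 n_uM n_uT le_rfl le_rfl le_rfl)
    (by
      simp only [gN, List.forall_mem_cons, exadd, exsub, exmul, exc, exv2, exv3, exv5, exv7, exv11, exv13]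
      push_cast
      exact ⟨hb.e0, hb.T0, hb.M0, a1, n_uM, n_uT, by linarith [hb.e1], by linarith [hb.T1], by
      linarith [hb.M1], by linarith, by linarith, by linarith,
        fun _ hh => absurd hh List.not_mem_nil⟩)
  rw [exmul, exc, pN] at k
  simp only [exadd, exsub, exmul, exc, exv2, exv3, exv5, exv7, exv11, exv13,
    spE_val (hT.h ..) (exv3 ..) (exv13 ..),
    spE_val (hM.h ..) (exv5 ..) (exv11 ..),
    spE_val (he.h ..) (exv2 ..) (exv7 ..), hW.h] at k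
  push_cast at k
  have k2 := fin_of hM0 (t := W - (sp nT dT uT + sp cM dM uM + sp ce de ue))
    (by refine k.trans_eq ?_; ring)
  linarith

theorem kA1_of (hb : Bd de dT dM) (hT : Dt de dT dM NT nT) (hM : Dt de dT dM CM cM) (he : Dt de dT dM CE ce) (hW : Dt de dT dM WE W)
    (hM0 : 0 < M)
    (h : check (gA1.map exPol) (exPol (Ex.mul (Ex.c M) (pA1 NT CM CE WE))) e = true) :
    ∀ p n uM uT w X : ℝ, 0 ≤ p → 0 ≤ n → 0 ≤ w → w ≤ 13 / 20 → w ≤ X → 2 * X ≤ 1 + w → uT ≤ 1 - X + dT → uT ≤ 1 → uM ≤ uT → p - n ≤ de - w → n ≤ 1 - de → p ≤ uM →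
    sp nT dT uT + sp cM dM uM + (sp ce de p + sn ce de n)
      + (w * X * (1 + w - X) - w ^ 3 / 3) ≤ W := by
  intro p n uM uT w X a1 a2 a3 a4 a5 a6 a7 a8 a9 a10 a11 a12
  have n_uT : 0 ≤ uT := by linarith [hb.e0]
  have n_uM : 0 ≤ uM := by linarith [hb.e0]
  have n_X : 0 ≤ X := by linarith [hb.e0]
  have k := cert (y := yv de dT dM p n uT uM w X) h
    (yv_nonneg hb.e0 hb.T0 hb.M0 a1 a2 n_uT n_uM a3 n_X)
    (by
      simp only [gA1, List.forall_mem_cons, exadd, exsub, exmul, exc, exv2, exv3, exv5, exv7, exv11, exv13, exv17, exv19, exv23]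
      push_cast
      exact ⟨hb.e0, hb.T0, hb.M0, a1, a2, n_uT, n_uM, a3, n_X, by linarith [hb.e1], by linarith
      [hb.T1], by linarith [hb.M1], by linarith, by linarith, by linarith, by linarith, by
      linarith, by linarith, by linarith, by linarith, by linarith,
        fun _ hh => absurd hh List.not_mem_nil⟩)
  rw [exmul, exc, pA1] at k
  simp only [exadd, exsub, exmul, exc, exv2, exv3, exv5, exv7, exv11, exv13, exv17, exv19, exv23,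
    spE_val (hT.h ..) (exv3 ..) (exv13 ..),
    spE_val (hM.h ..) (exv5 ..) (exv17 ..),
    spE_val (he.h ..) (exv2 ..) (exv7 ..),
    snE_val (he.h ..) (exv2 ..) (exv11 ..), hW.h] at k
  push_cast at k
  have k2 := fin_of hM0 (t := W - (sp nT dT uT + sp cM dM uM + (sp ce de p + sn ce de n)
      + (w * X * (1 + w - X) - w ^ 3 / 3)))
    (by refine k.trans_eq ?_; ring)
  linarith

theorem kA2_of (hb : Bd de dT dM) (hT : Dt de dT dM NT nT) (hM : Dt de dT dM CM cM) (he : Dt de dT dM CE ce) (hW : Dt de dT dM WE W)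
    (hM0 : 0 < M)
    (h : check (gA2.map exPol) (exPol (Ex.mul (Ex.c M) (pA2 NT CM CE WE))) e = true) :
    ∀ p n uM uT w X : ℝ, 0 ≤ p → 0 ≤ n → 0 ≤ X → X ≤ w → w ≤ 13 / 20 → uT ≤ 1 - X + dT → uT ≤ 1 → uM ≤ uT → p - n ≤ de - w → n ≤ 1 - de → p ≤ uM →
    sp nT dT uT + sp cM dM uM + (sp ce de p + sn ce de n)
      + (w * X - X ^ 3 / 3) ≤ W := by
  intro p n uM uT w X a1 a2 a3 a4 a5 a6 a7 a8 a9 a10 a11
  have n_uT : 0 ≤ uT := by linarith [hb.e0]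
  have n_uM : 0 ≤ uM := by linarith [hb.e0]
  have n_w : 0 ≤ w := by linarith [hb.e0]
  have k := cert (y := yv de dT dM p n uT uM w X) h
    (yv_nonneg hb.e0 hb.T0 hb.M0 a1 a2 n_uT n_uM n_w a3)
    (by
      simp only [gA2, List.forall_mem_cons, exadd, exsub, exmul, exc, exv2, exv3, exv5, exv7, exv11, exv13, exv17, exv19, exv23]
      push_cast
      exact ⟨hb.e0, hb.T0, hb.M0, a1, a2, n_uT, n_uM, n_w, a3, by linarith [hb.e1], by linarith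
      [hb.T1], by linarith [hb.M1], by linarith, by linarith, by linarith, by linarith, by
      linarith, by linarith, by linarith, by linarith,
        fun _ hh => absurd hh List.not_mem_nil⟩)
  rw [exmul, exc, pA2] at k
  simp only [exadd, exsub, exmul, exc, exv2, exv3, exv5, exv7, exv11, exv13, exv17, exv19, exv23,
    spE_val (hT.h ..) (exv3 ..) (exv13 ..),
    spE_val (hM.h ..) (exv5 ..) (exv17 ..),
    spE_val (he.h ..) (exv2 ..) (exv7 ..),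
    snE_val (he.h ..) (exv2 ..) (exv11 ..), hW.h] at k
  push_cast at k
  have k2 := fin_of hM0 (t := W - (sp nT dT uT + sp cM dM uM + (sp ce de p + sn ce de n)
      + (w * X - X ^ 3 / 3)))
    (by refine k.trans_eq ?_; ring)
  linarith

theorem kB1_of (hb : Bd de dT dM) (hT : Dt de dT dM NT nT) (hM : Dt de dT dM CM cM) (he : Dt de dT dM CE ce) (hL : Dt de dT dM LE L) (hW : Dt de dT dM WE W)
    (hM0 : 0 < M)
    (h : check (gB1.map exPol) (exPol (Ex.mul (Ex.c M) (pB1 NT CM CE LE WE))) e = true) :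
    ∀ p n uM uT w : ℝ, 0 ≤ p → 0 ≤ n → 0 ≤ w → w ≤ 13 / 20 → uT ≤ 1 → uM ≤ uT → p - n ≤ de - w → n ≤ 1 - de → p ≤ uM →
    sp (nT - L) dT uT + sp cM dM uM + (sp ce de p + sn ce de n)
      + (w * (1 + w) ^ 2 / 4 - w ^ 3 / 3) - L * w ≤ W := by
  intro p n uM uT w a1 a2 a3 a4 a5 a6 a7 a8 a9
  have n_uT : 0 ≤ uT := by linarith [hb.e0]
  have n_uM : 0 ≤ uM := by linarith [hb.e0]
  have k := cert (y := yv de dT dM p n uT uM w 0) h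
    (yv_nonneg hb.e0 hb.T0 hb.M0 a1 a2 n_uT n_uM a3 le_rfl)
    (by
      simp only [gB1, List.forall_mem_cons, exadd, exsub, exmul, exc, exv2, exv3, exv5, exv7, exv11, exv13, exv17, exv19]
      push_cast
      exact ⟨hb.e0, hb.T0, hb.M0, a1, a2, n_uT, n_uM, a3, by linarith [hb.e1], by linarith
      [hb.T1], by linarith [hb.M1], by linarith, by linarith, by linarith, by linarith, by
      linarith, by linarith,
        fun _ hh => absurd hh List.not_mem_nil⟩)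
  rw [exmul, exc, pB1] at k
  simp only [exadd, exsub, exmul, exc, exv2, exv3, exv5, exv7, exv11, exv13, exv17, exv19,
    spE_val ((hT.sub hL).h ..) (exv3 ..) (exv13 ..),
    spE_val (hM.h ..) (exv5 ..) (exv17 ..),
    spE_val (he.h ..) (exv2 ..) (exv7 ..),
    snE_val (he.h ..) (exv2 ..) (exv11 ..),
    hL.h, hW.h] at k
  push_cast at k
  have k2 := fin_of hM0 (t := W - (sp (nT - L) dT uT + sp cM dM uM + (sp ce de p + sn ce de n)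
      + (w * (1 + w) ^ 2 / 4 - w ^ 3 / 3) - L * w))
    (by refine k.trans_eq ?_; ring)
  linarith

theorem kB2_of (hb : Bd de dT dM) (hT : Dt de dT dM NT nT) (hM : Dt de dT dM CM cM) (he : Dt de dT dM CE ce) (hL : Dt de dT dM LE L) (hW : Dt de dT dM WE W)
    (hM0 : 0 < M)
    (h : check (gB2.map exPol) (exPol (Ex.mul (Ex.c M) (pB2 NT CM CE LE WE))) e = true) :
    ∀ uM uT w dF : ℝ, 0 ≤ uM → uM ≤ uT → uT ≤ 1 → 0 ≤ w → w ≤ 13 / 20 → de ≤ dF → dF ≤ 1 → 0 ≤ de - dF + uT + w →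
    sp nT dT uT + sp cM dM uM + sn ce de w
      + (w * (1 + w - dF) ^ 2 / 4 - w ^ 3 / 4) - L * (de - dF + uT + w) ≤ W := by
  intro uM uT w dF a1 a2 a3 a4 a5 a6 a7 a8
  have n_uT : 0 ≤ uT := by linarith [hb.e0]
  have n_dF : 0 ≤ dF := by linarith [hb.e0]
  have k := cert (y := yv de dT dM uT uM w dF 0 0) h
    (yv_nonneg hb.e0 hb.T0 hb.M0 n_uT a1 a4 n_dF le_rfl le_rfl)
    (by
      simp only [gB2, List.forall_mem_cons, exadd, exsub, exmul, exc, exv2, exv3, exv5, exv7, exv11, exv13, exv17]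
      push_cast
      exact ⟨hb.e0, hb.T0, hb.M0, n_uT, a1, a4, n_dF, by linarith [hb.e1], by linarith [hb.T1],
      by linarith [hb.M1], by linarith, by linarith, by linarith, by linarith, by linarith, by
      linarith,
        fun _ hh => absurd hh List.not_mem_nil⟩)
  rw [exmul, exc, pB2] at k
  simp only [exadd, exsub, exmul, exc, exv2, exv3, exv5, exv7, exv11, exv13, exv17,
    spE_val (hT.h ..) (exv3 ..) (exv7 ..),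
    spE_val (hM.h ..) (exv5 ..) (exv11 ..),
    snE_val (he.h ..) (exv2 ..) (exv13 ..),
    hL.h, hW.h] at k
  push_cast at k
  have k2 := fin_of hM0 (t := W - (sp nT dT uT + sp cM dM uM + sn ce de w
      + (w * (1 + w - dF) ^ 2 / 4 - w ^ 3 / 4) - L * (de - dF + uT + w)))
    (by refine k.trans_eq ?_; ring)
  linarith

theorem kB3_of (hb : Bd de dT dM) (hT : Dt de dT dM NT nT) (hM : Dt de dT dM CM cM) (he : Dt de dT dM CE ce) (hW : Dt de dT dM WE W)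
    (hM0 : 0 < M)
    (h : check (gB3.map exPol) (exPol (Ex.mul (Ex.c M) (pB3 NT CM CE WE))) e = true) :
    ∀ uM uT w : ℝ, 0 ≤ uM → uM ≤ uT → 0 ≤ w → w ≤ 13 / 20 → uT ≤ 1 - de - w →
    sp nT dT uT + sp cM dM uM + sn ce de w
      + (w * (1 - de - uT) ^ 2 / 4 - w ^ 3 / 4) ≤ W := by
  intro uM uT w a1 a2 a3 a4 a5
  have n_uT : 0 ≤ uT := by linarith [hb.e0]
  have k := cert (y := yv de dT dM uT uM w 0 0 0) h
    (yv_nonneg hb.e0 hb.T0 hb.M0 n_uT a1 a3 le_rfl le_rfl le_rfl)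
    (by
      simp only [gB3, List.forall_mem_cons, exadd, exsub, exmul, exc, exv2, exv3, exv5, exv7, exv11, exv13]
      push_cast
      exact ⟨hb.e0, hb.T0, hb.M0, n_uT, a1, a3, by linarith [hb.e1], by linarith [hb.T1], by
      linarith [hb.M1], by linarith, by linarith, by linarith,
        fun _ hh => absurd hh List.not_mem_nil⟩)
  rw [exmul, exc, pB3] at k
  simp only [exadd, exsub, exmul, exc, exv2, exv3, exv5, exv7, exv11, exv13,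
    spE_val (hT.h ..) (exv3 ..) (exv7 ..),
    spE_val (hM.h ..) (exv5 ..) (exv11 ..),
    snE_val (he.h ..) (exv2 ..) (exv13 ..), hW.h] at k
  push_cast at k
  have k2 := fin_of hM0 (t := W - (sp nT dT uT + sp cM dM uM + sn ce de w
      + (w * (1 - de - uT) ^ 2 / 4 - w ^ 3 / 4)))
    (by refine k.trans_eq ?_; ring)
  linarith

theorem kZM_of (hb : Bd de dT dM) (hT : Dt de dT dM NT nT) (hM : Dt de dT dM CM cM) (he : Dt de dT dM CE ce) (hW : Dt de dT dM WE W)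
    (hM0 : 0 < M)
    (h : check (gZM.map exPol) (exPol (Ex.mul (Ex.c M) (pZM NT CM CE WE))) e = true) :
    ∀ p n q r uT w : ℝ, 0 ≤ p → 0 ≤ n → 0 ≤ q → 0 ≤ r → p ≤ uT → uT ≤ 1 → 0 ≤ w → w ≤ 13 / 20 → p - n ≤ dM - w → n ≤ 1 - dM → q - r ≤ p - n → r ≤ 1 - de →
    sp nT dT uT + (sp cM dM p + sn cM dM n) + (sp ce de q + sn ce de r)
      + (w * (1 + w) ^ 2 / 4 - w ^ 3 / 3) ≤ W := by
  intro p n q r uT w a1 a2 a3 a4 a5 a6 a7 a8 a9 a10 a11 a12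
  have n_uT : 0 ≤ uT := by linarith [hb.e0]
  have k := cert (y := yv de dT dM p n q r uT w) h
    (yv_nonneg hb.e0 hb.T0 hb.M0 a1 a2 a3 a4 n_uT a7)
    (by
      simp only [gZM, List.forall_mem_cons, exadd, exsub, exmul, exc, exv2, exv3, exv5, exv7, exv11, exv13, exv17, exv19, exv23]
      push_cast
      exact ⟨hb.e0, hb.T0, hb.M0, a1, a2, a3, a4, n_uT, a7, by linarith [hb.e1], by linarith
      [hb.T1], by linarith [hb.M1], by linarith, by linarith, by linarith, by linarith, by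
      linarith, by linarith, by linarith,
        fun _ hh => absurd hh List.not_mem_nil⟩)
  rw [exmul, exc, pZM] at k
  simp only [exadd, exsub, exmul, exc, exv2, exv3, exv5, exv7, exv11, exv13, exv17, exv19, exv23,
    spE_val (hT.h ..) (exv3 ..) (exv19 ..),
    spE_val (hM.h ..) (exv5 ..) (exv7 ..),
    snE_val (hM.h ..) (exv5 ..) (exv11 ..),
    spE_val (he.h ..) (exv2 ..) (exv13 ..),
    snE_val (he.h ..) (exv2 ..) (exv17 ..), hW.h] at k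
  push_cast at k
  have k2 := fin_of hM0 (t := W - (sp nT dT uT + (sp cM dM p + sn cM dM n) + (sp ce de q + sn ce de r)
      + (w * (1 + w) ^ 2 / 4 - w ^ 3 / 3)))
    (by refine k.trans_eq ?_; ring)
  linarith

theorem kZT_of (hb : Bd de dT dM) (hT : Dt de dT dM NT nT) (hM : Dt de dT dM CM cM) (he : Dt de dT dM CE ce) (hW : Dt de dT dM WE W)
    (hM0 : 0 < M)
    (h : check (gZT.map exPol) (exPol (Ex.mul (Ex.c M) (pZT NT CM CE WE))) e = true) :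
    ∀ p n ue uM w : ℝ, 0 ≤ ue → ue ≤ uM → uM ≤ p → 0 ≤ n → 0 ≤ w → w ≤ 13 / 20 → p - n ≤ dT - w → n ≤ 1 - dT →
    (sp nT dT p + sn nT dT n) + sp cM dM uM + sp ce de ue
      + (w * (1 + w) ^ 2 / 4 - w ^ 3 / 3) ≤ W := by
  intro p n ue uM w a1 a2 a3 a4 a5 a6 a7 a8
  have n_p : 0 ≤ p := by linarith [hb.e0]
  have n_uM : 0 ≤ uM := by linarith [hb.e0]
  have k := cert (y := yv de dT dM p n ue uM w 0) h
    (yv_nonneg hb.e0 hb.T0 hb.M0 n_p a4 a1 n_uM a5 le_rfl)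
    (by
      simp only [gZT, List.forall_mem_cons, exadd, exsub, exmul, exc, exv2, exv3, exv5, exv7, exv11, exv13, exv17, exv19]
      push_cast
      exact ⟨hb.e0, hb.T0, hb.M0, n_p, a4, a1, n_uM, a5, by linarith [hb.e1], by linarith
      [hb.T1], by linarith [hb.M1], by linarith, by linarith, by linarith, by linarith, by
      linarith,
        fun _ hh => absurd hh List.not_mem_nil⟩)
  rw [exmul, exc, pZT] at k
  simp only [exadd, exsub, exmul, exc, exv2, exv3, exv5, exv7, exv11, exv13, exv17, exv19,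
    spE_val (hT.h ..) (exv3 ..) (exv7 ..),
    snE_val (hT.h ..) (exv3 ..) (exv11 ..),
    spE_val (hM.h ..) (exv5 ..) (exv17 ..),
    spE_val (he.h ..) (exv2 ..) (exv13 ..), hW.h] at k
  push_cast at k
  have k2 := fin_of hM0 (t := W - ((sp nT dT p + sn nT dT n) + sp cM dM uM + sp ce de ue
      + (w * (1 + w) ^ 2 / 4 - w ^ 3 / 3)))
    (by refine k.trans_eq ?_; ring)
  linarith

/-- **The column from its certificates** -/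
theorem colL_of {nT nM ne kT kM k L de dT dM W : ℝ} {NT CM CE LE WE : Ex} (hb : Bd de dT dM)
    (hL0 : 0 ≤ L) (hn : 0 ≤ nT - L) (hc : 0 ≤ nM - k) (hc2 : 0 ≤ ne - kT - kM)
    (hT : Dt de dT dM NT nT) (hM : Dt de dT dM CM (nM - k)) (he : Dt de dT dM CE (ne - kT - kM))
    (hL : Dt de dT dM LE L) (hW : Dt de dT dM WE W)
    {MN : ℤ} {eN : NN} (hN : 0 < MN)
    (cN : check (gN.map exPol) (exPol (Ex.mul (Ex.c MN) (pN NT CM CE WE))) eN = true)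
    {MA1 : ℤ} {eA1 : NN} (hA1 : 0 < MA1)
    (cA1 : check (gA1.map exPol) (exPol (Ex.mul (Ex.c MA1) (pA1 NT CM CE WE))) eA1 = true)
    {MA2 : ℤ} {eA2 : NN} (hA2 : 0 < MA2)
    (cA2 : check (gA2.map exPol) (exPol (Ex.mul (Ex.c MA2) (pA2 NT CM CE WE))) eA2 = true)
    {MB1 : ℤ} {eB1 : NN} (hB1 : 0 < MB1)
    (cB1 : check (gB1.map exPol) (exPol (Ex.mul (Ex.c MB1) (pB1 NT CM CE LE WE))) eB1 = true)
    {MB2 : ℤ} {eB2 : NN} (hB2 : 0 < MB2)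
    (cB2 : check (gB2.map exPol) (exPol (Ex.mul (Ex.c MB2) (pB2 NT CM CE LE WE))) eB2 = true)
    {MB3 : ℤ} {eB3 : NN} (hB3 : 0 < MB3)
    (cB3 : check (gB3.map exPol) (exPol (Ex.mul (Ex.c MB3) (pB3 NT CM CE WE))) eB3 = true)
    {MZM : ℤ} {eZM : NN} (hZM : 0 < MZM)
    (cZM : check (gZM.map exPol) (exPol (Ex.mul (Ex.c MZM) (pZM NT CM CE WE))) eZM = true)
    {MZT : ℤ} {eZT : NN} (hZT : 0 < MZT)
    (cZT : check (gZT.map exPol) (exPol (Ex.mul (Ex.c MZT) (pZT NT CM CE WE))) eZT = true) :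
    ColL nT nM ne kT kM k L de dT dM W where
  L0 := hL0
  nT0 := hn
  cM0 := hc
  ce0 := hc2
  N := kN_of hb hT hM he hW hN cN
  A1 := kA1_of hb hT hM he hW hA1 cA1
  A2 := kA2_of hb hT hM he hW hA2 cA2
  B1 := kB1_of hb hT hM he hL hW hB1 cB1
  B2 := kB2_of hb hT hM he hL hW hB2 cB2
  B3 := kB3_of hb hT hM he hW hB3 cB3
  ZM := kZM_of hb hT hM he hW hZM cZM
  ZT := kZT_of hb hT hM he hW hZT cZT

end

end Pool.Agent.Helper47.TS
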