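import Pool.Agent.Helper47.TS.Kinds
import Pool.Agent.Helper47.FC.Fin

/-!
# The eight states of a column, with certificates of `Helper47.FC`
-/

set_option autoImplicit false
set_option linter.unusedSimpArgs false
set_option linter.unusedVariables false

namespace Pool.Agent.Helper47.TS

open Pool.Agent.Helper83.Cert Pool.Agent.Helper65.TS Pool.Agent.Helper47.FC

theorem fin_of9 {t : ℝ} (h : 0 ≤ 120000 * t) : 0 ≤ t := by linarith

section

variable {de dT dM nT cM ce L W : ℝ} {NT CM CE LE WE : Ex}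

theorem kN_of9 (hb : Bd de dT dM) (hT : Dt de dT dM NT nT) (hM : Dt de dT dM CM cM) (he : Dt de dT dM CE ce) (hW : Dt de dT dM WE W)
    {m0 k1 s1 k2 s2 : ℕ}
    (h : chkA V9 P9 1069 gN (pN NT CM CE WE) m0 k1 s1 k2 s2 = true) :
    ∀ ue uM uT : ℝ, 0 ≤ ue → ue ≤ uM → uM ≤ uT → uT ≤ 1 →
    sp nT dT uT + sp cM dM uM + sp ce de ue ≤ W := by
  intro ue uM uT a1 a2 a3 a4
  have n_uM : 0 ≤ uM := by linarith [hb.e0]
  have n_uT : 0 ≤ uT := by linarith [hb.e0]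
  have k := chkA_sound (y := yv de dT dM ue uM uT 0 0 0) vars9 (by decide) h
    (yv_nonneg hb.e0 hb.T0 hb.M0 a1 n_uM n_uT le_rfl le_rfl le_rfl)
    (by
      simp only [gN, List.forall_mem_cons, exadd, exsub, exmul, exc, exv2, exv3, exv5, exv7, exv11, exv13]
      push_cast
      exact ⟨hb.e0, hb.T0, hb.M0, a1, n_uM, n_uT, by linarith [hb.e1], by linarith [hb.T1], by
      linarith [hb.M1], by linarith, by linarith, by linarith,
        fun _ hh => absurd hh List.not_mem_nil⟩)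
  rw [pN] at k
  simp only [exadd, exsub, exmul, exc, exv2, exv3, exv5, exv7, exv11, exv13,
    spE_val (hT.h ..) (exv3 ..) (exv13 ..),
    spE_val (hM.h ..) (exv5 ..) (exv11 ..),
    spE_val (he.h ..) (exv2 ..) (exv7 ..), hW.h] at k
  push_cast at k
  have k2 := fin_of9 (t := W - (sp nT dT uT + sp cM dM uM + sp ce de ue))
    (by refine k.trans_eq ?_; ring)
  linarith

theorem kA1_of9 (hb : Bd de dT dM) (hT : Dt de dT dM NT nT) (hM : Dt de dT dM CM cM) (he : Dt de dT dM CE ce) (hW : Dt de dT dM WE W)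
    {m0 k1 s1 k2 s2 : ℕ}
    (h : chkA V9 P9 1069 gA1 (pA1 NT CM CE WE) m0 k1 s1 k2 s2 = true) :
    ∀ p n uM uT w X : ℝ, 0 ≤ p → 0 ≤ n → 0 ≤ w → w ≤ 13 / 20 → w ≤ X → 2 * X ≤ 1 + w → uT ≤ 1 - X + dT → uT ≤ 1 → uM ≤ uT → p - n ≤ de - w → n ≤ 1 - de → p ≤ uM →
    sp nT dT uT + sp cM dM uM + (sp ce de p + sn ce de n)
      + (w * X * (1 + w - X) - w ^ 3 / 3) ≤ W := by
  intro p n uM uT w X a1 a2 a3 a4 a5 a6 a7 a8 a9 a10 a11 a12
  have n_uT : 0 ≤ uT := by linarith [hb.e0]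
  have n_uM : 0 ≤ uM := by linarith [hb.e0]
  have n_X : 0 ≤ X := by linarith [hb.e0]
  have k := chkA_sound (y := yv de dT dM p n uT uM w X) vars9 (by decide) h
    (yv_nonneg hb.e0 hb.T0 hb.M0 a1 a2 n_uT n_uM a3 n_X)
    (by
      simp only [gA1, List.forall_mem_cons, exadd, exsub, exmul, exc, exv2, exv3, exv5, exv7, exv11, exv13, exv17, exv19, exv23]
      push_cast
      exact ⟨hb.e0, hb.T0, hb.M0, a1, a2, n_uT, n_uM, a3, n_X, by linarith [hb.e1], by linarith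
      [hb.T1], by linarith [hb.M1], by linarith, by linarith, by linarith, by linarith, by
      linarith, by linarith, by linarith, by linarith, by linarith,
        fun _ hh => absurd hh List.not_mem_nil⟩)
  rw [pA1] at k
  simp only [exadd, exsub, exmul, exc, exv2, exv3, exv5, exv7, exv11, exv13, exv17, exv19, exv23,
    spE_val (hT.h ..) (exv3 ..) (exv13 ..),
    spE_val (hM.h ..) (exv5 ..) (exv17 ..),
    spE_val (he.h ..) (exv2 ..) (exv7 ..),
    snE_val (he.h ..) (exv2 ..) (exv11 ..), hW.h] at k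
  push_cast at k
  have k2 := fin_of9 (t := W - (sp nT dT uT + sp cM dM uM + (sp ce de p + sn ce de n)
      + (w * X * (1 + w - X) - w ^ 3 / 3)))
    (by refine k.trans_eq ?_; ring)
  linarith

theorem kA2_of9 (hb : Bd de dT dM) (hT : Dt de dT dM NT nT) (hM : Dt de dT dM CM cM) (he : Dt de dT dM CE ce) (hW : Dt de dT dM WE W)
    {m0 k1 s1 k2 s2 : ℕ}
    (h : chkA V9 P9 1069 gA2 (pA2 NT CM CE WE) m0 k1 s1 k2 s2 = true) :
    ∀ p n uM uT w X : ℝ, 0 ≤ p → 0 ≤ n → 0 ≤ X → X ≤ w → w ≤ 13 / 20 → uT ≤ 1 - X + dT → uT ≤ 1 → uM ≤ uT → p - n ≤ de - w → n ≤ 1 - de → p ≤ uM →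
    sp nT dT uT + sp cM dM uM + (sp ce de p + sn ce de n)
      + (w * X - X ^ 3 / 3) ≤ W := by
  intro p n uM uT w X a1 a2 a3 a4 a5 a6 a7 a8 a9 a10 a11
  have n_uT : 0 ≤ uT := by linarith [hb.e0]
  have n_uM : 0 ≤ uM := by linarith [hb.e0]
  have n_w : 0 ≤ w := by linarith [hb.e0]
  have k := chkA_sound (y := yv de dT dM p n uT uM w X) vars9 (by decide) h
    (yv_nonneg hb.e0 hb.T0 hb.M0 a1 a2 n_uT n_uM n_w a3)
    (by
      simp only [gA2, List.forall_mem_cons, exadd, exsub, exmul, exc, exv2, exv3, exv5, exv7, exv11, exv13, exv17, exv19, exv23]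
      push_cast
      exact ⟨hb.e0, hb.T0, hb.M0, a1, a2, n_uT, n_uM, n_w, a3, by linarith [hb.e1], by linarith
      [hb.T1], by linarith [hb.M1], by linarith, by linarith, by linarith, by linarith, by
      linarith, by linarith, by linarith, by linarith,
        fun _ hh => absurd hh List.not_mem_nil⟩)
  rw [pA2] at k
  simp only [exadd, exsub, exmul, exc, exv2, exv3, exv5, exv7, exv11, exv13, exv17, exv19, exv23,
    spE_val (hT.h ..) (exv3 ..) (exv13 ..),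
    spE_val (hM.h ..) (exv5 ..) (exv17 ..),
    spE_val (he.h ..) (exv2 ..) (exv7 ..),
    snE_val (he.h ..) (exv2 ..) (exv11 ..), hW.h] at k
  push_cast at k
  have k2 := fin_of9 (t := W - (sp nT dT uT + sp cM dM uM + (sp ce de p + sn ce de n)
      + (w * X - X ^ 3 / 3)))
    (by refine k.trans_eq ?_; ring)
  linarith

theorem kB1_of9 (hb : Bd de dT dM) (hT : Dt de dT dM NT nT) (hM : Dt de dT dM CM cM) (he : Dt de dT dM CE ce) (hL : Dt de dT dM LE L) (hW : Dt de dT dM WE W)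
    {m0 k1 s1 k2 s2 : ℕ}
    (h : chkA V9 P9 1069 gB1 (pB1 NT CM CE LE WE) m0 k1 s1 k2 s2 = true) :
    ∀ p n uM uT w : ℝ, 0 ≤ p → 0 ≤ n → 0 ≤ w → w ≤ 13 / 20 → uT ≤ 1 → uM ≤ uT → p - n ≤ de - w → n ≤ 1 - de → p ≤ uM →
    sp (nT - L) dT uT + sp cM dM uM + (sp ce de p + sn ce de n)
      + (w * (1 + w) ^ 2 / 4 - w ^ 3 / 3) - L * w ≤ W := by
  intro p n uM uT w a1 a2 a3 a4 a5 a6 a7 a8 a9
  have n_uT : 0 ≤ uT := by linarith [hb.e0]
  have n_uM : 0 ≤ uM := by linarith [hb.e0]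
  have k := chkA_sound (y := yv de dT dM p n uT uM w 0) vars9 (by decide) h
    (yv_nonneg hb.e0 hb.T0 hb.M0 a1 a2 n_uT n_uM a3 le_rfl)
    (by
      simp only [gB1, List.forall_mem_cons, exadd, exsub, exmul, exc, exv2, exv3, exv5, exv7, exv11, exv13, exv17, exv19]
      push_cast
      exact ⟨hb.e0, hb.T0, hb.M0, a1, a2, n_uT, n_uM, a3, by linarith [hb.e1], by linarith
      [hb.T1], by linarith [hb.M1], by linarith, by linarith, by linarith, by linarith, by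
      linarith, by linarith,
        fun _ hh => absurd hh List.not_mem_nil⟩)
  rw [pB1] at k
  simp only [exadd, exsub, exmul, exc, exv2, exv3, exv5, exv7, exv11, exv13, exv17, exv19,
    spE_val ((hT.sub hL).h ..) (exv3 ..) (exv13 ..),
    spE_val (hM.h ..) (exv5 ..) (exv17 ..),
    spE_val (he.h ..) (exv2 ..) (exv7 ..),
    snE_val (he.h ..) (exv2 ..) (exv11 ..),
    hL.h, hW.h] at k
  push_cast at k
  have k2 := fin_of9 (t := W - (sp (nT - L) dT uT + sp cM dM uM + (sp ce de p + sn ce de n)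
      + (w * (1 + w) ^ 2 / 4 - w ^ 3 / 3) - L * w))
    (by refine k.trans_eq ?_; ring)
  linarith

theorem kB2_of9 (hb : Bd de dT dM) (hT : Dt de dT dM NT nT) (hM : Dt de dT dM CM cM) (he : Dt de dT dM CE ce) (hL : Dt de dT dM LE L) (hW : Dt de dT dM WE W)
    {m0 k1 s1 k2 s2 : ℕ}
    (h : chkA V9 P9 1069 gB2 (pB2 NT CM CE LE WE) m0 k1 s1 k2 s2 = true) :
    ∀ uM uT w dF : ℝ, 0 ≤ uM → uM ≤ uT → uT ≤ 1 → 0 ≤ w → w ≤ 13 / 20 → de ≤ dF → dF ≤ 1 → 0 ≤ de - dF + uT + w →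
    sp nT dT uT + sp cM dM uM + sn ce de w
      + (w * (1 + w - dF) ^ 2 / 4 - w ^ 3 / 4) - L * (de - dF + uT + w) ≤ W := by
  intro uM uT w dF a1 a2 a3 a4 a5 a6 a7 a8
  have n_uT : 0 ≤ uT := by linarith [hb.e0]
  have n_dF : 0 ≤ dF := by linarith [hb.e0]
  have k := chkA_sound (y := yv de dT dM uT uM w dF 0 0) vars9 (by decide) h
    (yv_nonneg hb.e0 hb.T0 hb.M0 n_uT a1 a4 n_dF le_rfl le_rfl)
    (by
      simp only [gB2, List.forall_mem_cons, exadd, exsub, exmul, exc, exv2, exv3, exv5, exv7, exv11, exv13, exv17]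
      push_cast
      exact ⟨hb.e0, hb.T0, hb.M0, n_uT, a1, a4, n_dF, by linarith [hb.e1], by linarith [hb.T1],
      by linarith [hb.M1], by linarith, by linarith, by linarith, by linarith, by linarith, by
      linarith,
        fun _ hh => absurd hh List.not_mem_nil⟩)
  rw [pB2] at k
  simp only [exadd, exsub, exmul, exc, exv2, exv3, exv5, exv7, exv11, exv13, exv17,
    spE_val (hT.h ..) (exv3 ..) (exv7 ..),
    spE_val (hM.h ..) (exv5 ..) (exv11 ..),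
    snE_val (he.h ..) (exv2 ..) (exv13 ..),
    hL.h, hW.h] at k
  push_cast at k
  have k2 := fin_of9 (t := W - (sp nT dT uT + sp cM dM uM + sn ce de w
      + (w * (1 + w - dF) ^ 2 / 4 - w ^ 3 / 4) - L * (de - dF + uT + w)))
    (by refine k.trans_eq ?_; ring)
  linarith

theorem kB3_of9 (hb : Bd de dT dM) (hT : Dt de dT dM NT nT) (hM : Dt de dT dM CM cM) (he : Dt de dT dM CE ce) (hW : Dt de dT dM WE W)
    {m0 k1 s1 k2 s2 : ℕ}
    (h : chkA V9 P9 1069 gB3 (pB3 NT CM CE WE) m0 k1 s1 k2 s2 = true) :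
    ∀ uM uT w : ℝ, 0 ≤ uM → uM ≤ uT → 0 ≤ w → w ≤ 13 / 20 → uT ≤ 1 - de - w →
    sp nT dT uT + sp cM dM uM + sn ce de w
      + (w * (1 - de - uT) ^ 2 / 4 - w ^ 3 / 4) ≤ W := by
  intro uM uT w a1 a2 a3 a4 a5
  have n_uT : 0 ≤ uT := by linarith [hb.e0]
  have k := chkA_sound (y := yv de dT dM uT uM w 0 0 0) vars9 (by decide) h
    (yv_nonneg hb.e0 hb.T0 hb.M0 n_uT a1 a3 le_rfl le_rfl le_rfl)
    (by
      simp only [gB3, List.forall_mem_cons, exadd, exsub, exmul, exc, exv2, exv3, exv5, exv7, exv11, exv13]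
      push_cast
      exact ⟨hb.e0, hb.T0, hb.M0, n_uT, a1, a3, by linarith [hb.e1], by linarith [hb.T1], by
      linarith [hb.M1], by linarith, by linarith, by linarith,
        fun _ hh => absurd hh List.not_mem_nil⟩)
  rw [pB3] at k
  simp only [exadd, exsub, exmul, exc, exv2, exv3, exv5, exv7, exv11, exv13,
    spE_val (hT.h ..) (exv3 ..) (exv7 ..),
    spE_val (hM.h ..) (exv5 ..) (exv11 ..),
    snE_val (he.h ..) (exv2 ..) (exv13 ..), hW.h] at k
  push_cast at k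
  have k2 := fin_of9 (t := W - (sp nT dT uT + sp cM dM uM + sn ce de w
      + (w * (1 - de - uT) ^ 2 / 4 - w ^ 3 / 4)))
    (by refine k.trans_eq ?_; ring)
  linarith

theorem kZM_of9 (hb : Bd de dT dM) (hT : Dt de dT dM NT nT) (hM : Dt de dT dM CM cM) (he : Dt de dT dM CE ce) (hW : Dt de dT dM WE W)
    {m0 k1 s1 k2 s2 : ℕ}
    (h : chkA V9 P9 1069 gZM (pZM NT CM CE WE) m0 k1 s1 k2 s2 = true) :
    ∀ p n q r uT w : ℝ, 0 ≤ p → 0 ≤ n → 0 ≤ q → 0 ≤ r → p ≤ uT → uT ≤ 1 → 0 ≤ w → w ≤ 13 / 20 → p - n ≤ dM - w → n ≤ 1 - dM → q - r ≤ p - n → r ≤ 1 - de →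
    sp nT dT uT + (sp cM dM p + sn cM dM n) + (sp ce de q + sn ce de r)
      + (w * (1 + w) ^ 2 / 4 - w ^ 3 / 3) ≤ W := by
  intro p n q r uT w a1 a2 a3 a4 a5 a6 a7 a8 a9 a10 a11 a12
  have n_uT : 0 ≤ uT := by linarith [hb.e0]
  have k := chkA_sound (y := yv de dT dM p n q r uT w) vars9 (by decide) h
    (yv_nonneg hb.e0 hb.T0 hb.M0 a1 a2 a3 a4 n_uT a7)
    (by
      simp only [gZM, List.forall_mem_cons, exadd, exsub, exmul, exc, exv2, exv3, exv5, exv7, exv11, exv13, exv17, exv19, exv23]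
      push_cast
      exact ⟨hb.e0, hb.T0, hb.M0, a1, a2, a3, a4, n_uT, a7, by linarith [hb.e1], by linarith
      [hb.T1], by linarith [hb.M1], by linarith, by linarith, by linarith, by linarith, by
      linarith, by linarith, by linarith,
        fun _ hh => absurd hh List.not_mem_nil⟩)
  rw [pZM] at k
  simp only [exadd, exsub, exmul, exc, exv2, exv3, exv5, exv7, exv11, exv13, exv17, exv19, exv23,
    spE_val (hT.h ..) (exv3 ..) (exv19 ..),
    spE_val (hM.h ..) (exv5 ..) (exv7 ..),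
    snE_val (hM.h ..) (exv5 ..) (exv11 ..),
    spE_val (he.h ..) (exv2 ..) (exv13 ..),
    snE_val (he.h ..) (exv2 ..) (exv17 ..), hW.h] at k
  push_cast at k
  have k2 := fin_of9 (t := W - (sp nT dT uT + (sp cM dM p + sn cM dM n) + (sp ce de q + sn ce de r)
      + (w * (1 + w) ^ 2 / 4 - w ^ 3 / 3)))
    (by refine k.trans_eq ?_; ring)
  linarith

theorem kZT_of9 (hb : Bd de dT dM) (hT : Dt de dT dM NT nT) (hM : Dt de dT dM CM cM) (he : Dt de dT dM CE ce) (hW : Dt de dT dM WE W)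
    {m0 k1 s1 k2 s2 : ℕ}
    (h : chkA V9 P9 1069 gZT (pZT NT CM CE WE) m0 k1 s1 k2 s2 = true) :
    ∀ p n ue uM w : ℝ, 0 ≤ ue → ue ≤ uM → uM ≤ p → 0 ≤ n → 0 ≤ w → w ≤ 13 / 20 → p - n ≤ dT - w → n ≤ 1 - dT →
    (sp nT dT p + sn nT dT n) + sp cM dM uM + sp ce de ue
      + (w * (1 + w) ^ 2 / 4 - w ^ 3 / 3) ≤ W := by
  intro p n ue uM w a1 a2 a3 a4 a5 a6 a7 a8
  have n_p : 0 ≤ p := by linarith [hb.e0]
  have n_uM : 0 ≤ uM := by linarith [hb.e0]
  have k := chkA_sound (y := yv de dT dM p n ue uM w 0) vars9 (by decide) h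
    (yv_nonneg hb.e0 hb.T0 hb.M0 n_p a4 a1 n_uM a5 le_rfl)
    (by
      simp only [gZT, List.forall_mem_cons, exadd, exsub, exmul, exc, exv2, exv3, exv5, exv7, exv11, exv13, exv17, exv19]
      push_cast
      exact ⟨hb.e0, hb.T0, hb.M0, n_p, a4, a1, n_uM, a5, by linarith [hb.e1], by linarith
      [hb.T1], by linarith [hb.M1], by linarith, by linarith, by linarith, by linarith, by
      linarith,
        fun _ hh => absurd hh List.not_mem_nil⟩)
  rw [pZT] at k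
  simp only [exadd, exsub, exmul, exc, exv2, exv3, exv5, exv7, exv11, exv13, exv17, exv19,
    spE_val (hT.h ..) (exv3 ..) (exv7 ..),
    snE_val (hT.h ..) (exv3 ..) (exv11 ..),
    spE_val (hM.h ..) (exv5 ..) (exv17 ..),
    spE_val (he.h ..) (exv2 ..) (exv13 ..), hW.h] at k
  push_cast at k
  have k2 := fin_of9 (t := W - ((sp nT dT p + sn nT dT n) + sp cM dM uM + sp ce de ue
      + (w * (1 + w) ^ 2 / 4 - w ^ 3 / 3)))
    (by refine k.trans_eq ?_; ring)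
  linarith

/-- **The column from its certificates** -/
theorem colL_of9 {nT nM ne kT kM k L de dT dM W : ℝ} {NT CM CE LE WE : Ex} (hb : Bd de dT dM)
    (hL0 : 0 ≤ L) (hn : 0 ≤ nT - L) (hc : 0 ≤ nM - k) (hc2 : 0 ≤ ne - kT - kM)
    (hT : Dt de dT dM NT nT) (hM : Dt de dT dM CM (nM - k)) (he : Dt de dT dM CE (ne - kT - kM))
    (hL : Dt de dT dM LE L) (hW : Dt de dT dM WE W)
    {mN kN sN lN tN : ℕ}
    (cN : chkA V9 P9 1069 gN (pN NT CM CE WE) mN kN sN lN tN = true)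
    {mA1 kA1 sA1 lA1 tA1 : ℕ}
    (cA1 : chkA V9 P9 1069 gA1 (pA1 NT CM CE WE) mA1 kA1 sA1 lA1 tA1 = true)
    {mA2 kA2 sA2 lA2 tA2 : ℕ}
    (cA2 : chkA V9 P9 1069 gA2 (pA2 NT CM CE WE) mA2 kA2 sA2 lA2 tA2 = true)
    {mB1 kB1 sB1 lB1 tB1 : ℕ}
    (cB1 : chkA V9 P9 1069 gB1 (pB1 NT CM CE LE WE) mB1 kB1 sB1 lB1 tB1 = true)
    {mB2 kB2 sB2 lB2 tB2 : ℕ}
    (cB2 : chkA V9 P9 1069 gB2 (pB2 NT CM CE LE WE) mB2 kB2 sB2 lB2 tB2 = true)
    {mB3 kB3 sB3 lB3 tB3 : ℕ}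
    (cB3 : chkA V9 P9 1069 gB3 (pB3 NT CM CE WE) mB3 kB3 sB3 lB3 tB3 = true)
    {mZM kZM sZM lZM tZM : ℕ}
    (cZM : chkA V9 P9 1069 gZM (pZM NT CM CE WE) mZM kZM sZM lZM tZM = true)
    {mZT kZT sZT lZT tZT : ℕ}
    (cZT : chkA V9 P9 1069 gZT (pZT NT CM CE WE) mZT kZT sZT lZT tZT = true) :
    ColL nT nM ne kT kM k L de dT dM W where
  L0 := hL0
  nT0 := hn
  cM0 := hc
  ce0 := hc2
  N := kN_of9 hb hT hM he hW cN
  A1 := kA1_of9 hb hT hM he hW cA1
  A2 := kA2_of9 hb hT hM he hW cA2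
  B1 := kB1_of9 hb hT hM he hL hW cB1
  B2 := kB2_of9 hb hT hM he hL hW cB2
  B3 := kB3_of9 hb hT hM he hW cB3
  ZM := kZM_of9 hb hT hM he hW cZM
  ZT := kZT_of9 hb hT hM he hW cZT

end

end Pool.Agent.Helper47.TS
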