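import Pool.Agent.Helper47.TS.Kinds
import Pool.Agent.Helper47.TS.Num

/-!
# The functions of `Num.lean` as expressions
-/

set_option autoImplicit false

namespace Pool.Agent.Helper47.TS

open Pool.Agent.Helper83.Cert

/-- the value of an expression in the three heights -/
structure Vt (x y z : ℝ) (E : Ex) (r : ℝ) : Prop where
  h : ∀ a b c d e f : ℝ, exVal (yv x y z a b c d e f) E = r

variable {x y z p q r : ℝ} {P Q R : Ex}

theorem vt2 : Vt x y z (Ex.v 2) x := ⟨fun _ _ _ _ _ _ => exv2 ..⟩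

theorem vt3 : Vt x y z (Ex.v 3) y := ⟨fun _ _ _ _ _ _ => exv3 ..⟩

theorem vt5 : Vt x y z (Ex.v 5) z := ⟨fun _ _ _ _ _ _ => exv5 ..⟩

def n1E (P : Ex) : Ex :=
    Ex.add (Ex.c 9738) (Ex.mul (Ex.c (-3368)) P)

theorem n1_dt (h1 : Vt x y z P p) :
    Dt x y z (n1E P) (n1 p) :=
  ⟨fun a b c d e f => by
    simp only [n1E, exadd, exmul, exc, h1.h]
    unfold n1
    push_cast
    ring⟩

def n2E (P : Ex) : Ex :=
    Ex.add (Ex.c 7858) (Ex.mul (Ex.c (-1068)) P)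

theorem n2_dt (h1 : Vt x y z P p) :
    Dt x y z (n2E P) (n2 p) :=
  ⟨fun a b c d e f => by
    simp only [n2E, exadd, exmul, exc, h1.h]
    unfold n2
    push_cast
    ring⟩

def n3E (P : Ex) : Ex :=
    Ex.add (Ex.c 7144) (Ex.mul (Ex.c (-1717)) P)

theorem n3_dt (h1 : Vt x y z P p) :
    Dt x y z (n3E P) (n3 p) :=
  ⟨fun a b c d e f => by
    simp only [n3E, exadd, exmul, exc, h1.h]
    unfold n3
    push_cast
    ring⟩

def n4E (P : Ex) : Ex :=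
    Ex.add (Ex.c 6345) (Ex.mul (Ex.c (-1844)) P)

theorem n4_dt (h1 : Vt x y z P p) :
    Dt x y z (n4E P) (n4 p) :=
  ⟨fun a b c d e f => by
    simp only [n4E, exadd, exmul, exc, h1.h]
    unfold n4
    push_cast
    ring⟩

def k12E (P Q : Ex) : Ex :=
    Ex.add (Ex.add (Ex.c 6590) (Ex.mul (Ex.c (-5592)) P)) (Ex.add (Ex.mul (Ex.c (-4125)) Q)
    (Ex.mul (Ex.mul (Ex.c (-882)) P) Q))

theorem k12_dt (h1 : Vt x y z P p) (h2 : Vt x y z Q q) :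
    Dt x y z (k12E P Q) (k12 p q) :=
  ⟨fun a b c d e f => by
    simp only [k12E, exadd, exmul, exc, h1.h, h2.h]
    unfold k12
    push_cast
    ring⟩

def k13E (P Q : Ex) : Ex :=
    Ex.add (Ex.add (Ex.c 4540) (Ex.mul (Ex.c (-4561)) P)) (Ex.add (Ex.mul (Ex.c (-5755)) Q)
    (Ex.mul (Ex.mul (Ex.c 6858) P) Q))

theorem k13_dt (h1 : Vt x y z P p) (h2 : Vt x y z Q q) :
    Dt x y z (k13E P Q) (k13 p q) :=
  ⟨fun a b c d e f => by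
    simp only [k13E, exadd, exmul, exc, h1.h, h2.h]
    unfold k13
    push_cast
    ring⟩

def k14E (P Q : Ex) : Ex :=
    Ex.add (Ex.add (Ex.c 3113) (Ex.mul (Ex.c (-4331)) P)) (Ex.add (Ex.mul (Ex.c (-5172)) Q)
    (Ex.mul (Ex.mul (Ex.c 7599) P) Q))

theorem k14_dt (h1 : Vt x y z P p) (h2 : Vt x y z Q q) :
    Dt x y z (k14E P Q) (k14 p q) :=
  ⟨fun a b c d e f => by
    simp only [k14E, exadd, exmul, exc, h1.h, h2.h]
    unfold k14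
    push_cast
    ring⟩

def k23E (P Q : Ex) : Ex :=
    Ex.add (Ex.add (Ex.c 1849) (Ex.mul (Ex.c (-2082)) P)) (Ex.add (Ex.mul (Ex.c (-2535)) Q)
    (Ex.mul (Ex.mul (Ex.c 3685) P) Q))

theorem k23_dt (h1 : Vt x y z P p) (h2 : Vt x y z Q q) :
    Dt x y z (k23E P Q) (k23 p q) :=
  ⟨fun a b c d e f => by
    simp only [k23E, exadd, exmul, exc, h1.h, h2.h]
    unfold k23
    push_cast
    ring⟩

def k24E (P Q : Ex) : Ex :=
    Ex.add (Ex.add (Ex.c 3923) (Ex.mul (Ex.c (-5604)) P)) (Ex.add (Ex.mul (Ex.c (-5172)) Q)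
    (Ex.mul (Ex.mul (Ex.c 9570) P) Q))

theorem k24_dt (h1 : Vt x y z P p) (h2 : Vt x y z Q q) :
    Dt x y z (k24E P Q) (k24 p q) :=
  ⟨fun a b c d e f => by
    simp only [k24E, exadd, exmul, exc, h1.h, h2.h]
    unfold k24
    push_cast
    ring⟩

def k34E (P Q : Ex) : Ex :=
    Ex.add (Ex.add (Ex.c 6325) (Ex.mul (Ex.c (-4902)) P)) (Ex.add (Ex.mul (Ex.c (-6465)) Q)
    (Ex.mul (Ex.mul (Ex.c 12879) P) Q))

theorem k34_dt (h1 : Vt x y z P p) (h2 : Vt x y z Q q) :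
    Dt x y z (k34E P Q) (k34 p q) :=
  ⟨fun a b c d e f => by
    simp only [k34E, exadd, exmul, exc, h1.h, h2.h]
    unfold k34
    push_cast
    ring⟩

def l123E (P Q : Ex) : Ex :=
    Ex.add (Ex.add (Ex.c 1294) (Ex.mul (Ex.c (-1165)) P)) (Ex.add (Ex.mul (Ex.c (-2148)) Q)
    (Ex.mul (Ex.mul (Ex.c 2440) P) Q))

theorem l123_dt (h1 : Vt x y z P p) (h2 : Vt x y z Q q) :
    Dt x y z (l123E P Q) (l123 p q) :=
  ⟨fun a b c d e f => by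
    simp only [l123E, exadd, exmul, exc, h1.h, h2.h]
    unfold l123
    push_cast
    ring⟩

def l214E (P Q : Ex) : Ex :=
    Ex.add (Ex.add (Ex.c 451) (Ex.mul (Ex.c (-499)) P)) (Ex.add (Ex.mul (Ex.c (-743)) Q) (Ex.mul
    (Ex.mul (Ex.c 831) P) Q))

theorem l214_dt (h1 : Vt x y z P p) (h2 : Vt x y z Q q) :
    Dt x y z (l214E P Q) (l214 p q) :=
  ⟨fun a b c d e f => by
    simp only [l214E, exadd, exmul, exc, h1.h, h2.h]
    unfold l214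
    push_cast
    ring⟩

def l213E (P Q : Ex) : Ex :=
    Ex.add (Ex.add (Ex.c 812) (Ex.mul (Ex.c 1644) P)) (Ex.add (Ex.mul (Ex.c (-1344)) Q) (Ex.mul
    (Ex.mul (Ex.c (-2741)) P) Q))

theorem l213_dt (h1 : Vt x y z P p) (h2 : Vt x y z Q q) :
    Dt x y z (l213E P Q) (l213 p q) :=
  ⟨fun a b c d e f => by
    simp only [l213E, exadd, exmul, exc, h1.h, h2.h]
    unfold l213
    push_cast
    ring⟩

def W1E (P Q R : Ex) : Ex :=
    Ex.add (Ex.add (Ex.add (Ex.c 2727) (Ex.mul (Ex.c 2585) P)) (Ex.add (Ex.mul (Ex.c 2896) Q)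
    (Ex.add (Ex.mul (Ex.c 2423) R) (Ex.mul (Ex.mul (Ex.c 2071) P) P)))) (Ex.add (Ex.add (Ex.mul
    (Ex.mul (Ex.c (-124)) P) Q) (Ex.mul (Ex.mul (Ex.c (-1844)) P) R)) (Ex.add (Ex.mul (Ex.mul
    (Ex.c 2189) Q) Q) (Ex.add (Ex.mul (Ex.mul (Ex.c (-2537)) Q) R) (Ex.mul (Ex.mul (Ex.c 4351) R)
    R))))

theorem W1_dt (h1 : Vt x y z P p) (h2 : Vt x y z Q q) (h3 : Vt x y z R r) :
    Dt x y z (W1E P Q R) (W1 p q r) :=
  ⟨fun a b c d e f => by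
    simp only [W1E, exadd, exmul, exc, h1.h, h2.h, h3.h]
    unfold W1
    push_cast
    ring⟩

def W2E (P Q R : Ex) : Ex :=
    Ex.add (Ex.add (Ex.add (Ex.c 2727) (Ex.mul (Ex.c 2676) P)) (Ex.add (Ex.mul (Ex.c 2480) Q)
    (Ex.add (Ex.mul (Ex.c 2924) R) (Ex.mul (Ex.mul (Ex.c 2757) P) P)))) (Ex.add (Ex.add (Ex.mul
    (Ex.mul (Ex.c (-2030)) P) Q) (Ex.mul (Ex.mul (Ex.c (-2175)) P) R)) (Ex.add (Ex.mul (Ex.mul
    (Ex.c 4255) Q) Q) (Ex.add (Ex.mul (Ex.mul (Ex.c (-1606)) Q) R) (Ex.mul (Ex.mul (Ex.c 4158) R)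
    R))))

theorem W2_dt (h1 : Vt x y z P p) (h2 : Vt x y z Q q) (h3 : Vt x y z R r) :
    Dt x y z (W2E P Q R) (W2 p q r) :=
  ⟨fun a b c d e f => by
    simp only [W2E, exadd, exmul, exc, h1.h, h2.h, h3.h]
    unfold W2
    push_cast
    ring⟩

def W3E (P Q R : Ex) : Ex :=
    Ex.add (Ex.add (Ex.add (Ex.c 4681) (Ex.mul (Ex.c 1911) P)) (Ex.add (Ex.mul (Ex.c 737) Q)
    (Ex.add (Ex.mul (Ex.c 2220) R) (Ex.mul (Ex.mul (Ex.c (-360)) P) P)))) (Ex.add (Ex.add (Ex.mul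
    (Ex.mul (Ex.c 4296) P) Q) (Ex.mul (Ex.mul (Ex.c 7264) P) R)) (Ex.add (Ex.mul (Ex.mul (Ex.c
    3193) Q) Q) (Ex.add (Ex.mul (Ex.mul (Ex.c 1192) Q) R) (Ex.mul (Ex.mul (Ex.c 3492) R) R))))

theorem W3_dt (h1 : Vt x y z P p) (h2 : Vt x y z Q q) (h3 : Vt x y z R r) :
    Dt x y z (W3E P Q R) (W3 p q r) :=
  ⟨fun a b c d e f => by
    simp only [W3E, exadd, exmul, exc, h1.h, h2.h, h3.h]
    unfold W3
    push_cast
    ring⟩

def W4E (P Q R : Ex) : Ex :=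
    Ex.add (Ex.add (Ex.add (Ex.c 4916) (Ex.mul (Ex.c 1394) P)) (Ex.add (Ex.mul (Ex.c 4289) Q)
    (Ex.add (Ex.mul (Ex.c 2666) R) (Ex.mul (Ex.mul (Ex.c 1962) P) P)))) (Ex.add (Ex.add (Ex.mul
    (Ex.mul (Ex.c 375) P) Q) (Ex.mul (Ex.mul (Ex.c 2017) P) R)) (Ex.add (Ex.mul (Ex.mul (Ex.c
    1680) Q) Q) (Ex.add (Ex.mul (Ex.mul (Ex.c 2894) Q) R) (Ex.mul (Ex.mul (Ex.c 2627) R) R))))

theorem W4_dt (h1 : Vt x y z P p) (h2 : Vt x y z Q q) (h3 : Vt x y z R r) :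
    Dt x y z (W4E P Q R) (W4 p q r) :=
  ⟨fun a b c d e f => by
    simp only [W4E, exadd, exmul, exc, h1.h, h2.h, h3.h]
    unfold W4
    push_cast
    ring⟩

end Pool.Agent.Helper47.TS
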